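import Pool.Agent.MD437.Base

/-! Combinatorics of one random graph on `Fin n`, coded by its set of edges. -/

namespace Pool.Agent.MD437

open Finset

variable {n : ℕ}

/-- all possible edges -/
def E (n : ℕ) : Finset (Sym2 (Fin n)) := Finset.univ.filter (fun e => ¬ e.IsDiag)

lemma mem_E {e : Sym2 (Fin n)} : e ∈ E n ↔ ¬ e.IsDiag := by simp [E]

lemma mk_mem_E {x y : Fin n} : s(x, y) ∈ E n ↔ x ≠ y := by simp [E]

/-- adjacency in the graph with edge set `S` -/
def ad (S : Finset (Sym2 (Fin n))) (x y : Fin n) : Prop := x ≠ y ∧ s(x, y) ∈ S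

instance (S : Finset (Sym2 (Fin n))) (x y : Fin n) : Decidable (ad S x y) := by
  unfold ad; infer_instance

lemma ad_symm {S : Finset (Sym2 (Fin n))} {x y : Fin n} (h : ad S x y) : ad S y x :=
  ⟨h.1.symm, by rw [Sym2.eq_swap]; exact h.2⟩

lemma ad_comm (S : Finset (Sym2 (Fin n))) (x y : Fin n) : ad S x y ↔ ad S y x :=
  ⟨ad_symm, ad_symm⟩

/-- neighbours -/
def nb (S : Finset (Sym2 (Fin n))) (v : Fin n) : Finset (Fin n) :=
  Finset.univ.filter (fun w => ad S v w)

lemma mem_nb {S : Finset (Sym2 (Fin n))} {v w : Fin n} : w ∈ nb S v ↔ ad S v w := by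
  simp [nb]

/-- distance exactly two -/
def two (S : Finset (Sym2 (Fin n))) (v w : Fin n) : Prop :=
  v ≠ w ∧ ¬ ad S v w ∧ ∃ u, ad S v u ∧ ad S u w

instance (S : Finset (Sym2 (Fin n))) (x y : Fin n) : Decidable (two S x y) := by
  unfold two; infer_instance

/-- number of neighbours in `W` -/
def aW (W : Finset (Fin n)) (v : Fin n) (S : Finset (Sym2 (Fin n))) : ℝ :=
  ((W.filter (fun w => ad S v w)).card : ℝ)

/-- number of vertices of `W` at distance two -/
def cW (W : Finset (Fin n)) (v : Fin n) (S : Finset (Sym2 (Fin n))) : ℝ :=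
  ((W.filter (fun w => two S v w)).card : ℝ)

/-- degree -/
def dg (S : Finset (Sym2 (Fin n))) (v : Fin n) : ℕ := (nb S v).card

lemma aW_univ (v : Fin n) (S : Finset (Sym2 (Fin n))) : aW Finset.univ v S = (dg S v : ℝ) := rfl

lemma ad_insert {S : Finset (Sym2 (Fin n))} {x y v w : Fin n} :
    ad (insert s(x, y) S) v w ↔ ad S v w ∨ (v ≠ w ∧ ((v = x ∧ w = y) ∨ (v = y ∧ w = x))) := by
  unfold ad
  rw [Finset.mem_insert, Sym2.eq_iff]
  tauto

lemma ad_mono {S T : Finset (Sym2 (Fin n))} (h : S ⊆ T) {v w : Fin n} (hv : ad S v w) :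
    ad T v w := ⟨hv.1, h hv.2⟩

lemma dg_mono {S T : Finset (Sym2 (Fin n))} (h : S ⊆ T) (v : Fin n) : dg S v ≤ dg T v := by
  unfold dg nb
  refine Finset.card_le_card ?_
  intro w hw
  simp only [Finset.mem_filter, Finset.mem_univ, true_and] at hw ⊢
  exact ad_mono h hw

/-- counting lemma: two filters differ by at most the number of changed elements -/
lemma card_filter_diff {α : Type*} [DecidableEq α] (W : Finset α) (P Q : α → Prop)
    [DecidablePred P] [DecidablePred Q] (T : Finset α) (h : ∀ w ∈ W, w ∉ T → (P w ↔ Q w)) :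
    |((W.filter P).card : ℝ) - ((W.filter Q).card : ℝ)| ≤ (T.card : ℝ) := by
  have h1 : (W.filter P).card ≤ (W.filter Q).card + T.card := by
    have : W.filter P ⊆ W.filter Q ∪ T := by
      intro w hw
      rw [Finset.mem_filter] at hw
      rw [Finset.mem_union, Finset.mem_filter]
      by_cases hT : w ∈ T
      · exact Or.inr hT
      · exact Or.inl ⟨hw.1, (h w hw.1 hT).mp hw.2⟩
    exact (Finset.card_le_card this).trans (Finset.card_union_le _ _)
  have h2 : (W.filter Q).card ≤ (W.filter P).card + T.card := by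
    have : W.filter Q ⊆ W.filter P ∪ T := by
      intro w hw
      rw [Finset.mem_filter] at hw
      rw [Finset.mem_union, Finset.mem_filter]
      by_cases hT : w ∈ T
      · exact Or.inr hT
      · exact Or.inl ⟨hw.1, (h w hw.1 hT).mpr hw.2⟩
    exact (Finset.card_le_card this).trans (Finset.card_union_le _ _)
  rw [abs_le]
  constructor
  · have : ((W.filter Q).card : ℝ) ≤ (W.filter P).card + T.card := by exact_mod_cast h2
    linarith
  · have : ((W.filter P).card : ℝ) ≤ (W.filter Q).card + T.card := by exact_mod_cast h1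
    linarith

/-- adding one edge changes the neighbour counts by at most one, only at its ends -/
lemma aW_insert (W : Finset (Fin n)) (v : Fin n) (S : Finset (Sym2 (Fin n)))
    (e : Sym2 (Fin n)) :
    |aW W v (insert e S) - aW W v S| ≤ if v ∈ e then 1 else 0 := by
  induction e using Sym2.ind with
  | _ x y =>
    unfold aW
    by_cases h : v ∈ s(x, y)
    · rw [if_pos h]
      rw [Sym2.mem_iff] at h
      rcases h with h | h
      · refine (card_filter_diff W _ _ {y} ?_).trans (by simp)
        intro w _ hw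
        rw [Finset.mem_singleton] at hw
        rw [ad_insert]
        constructor
        · rintro (h1 | ⟨h2, (⟨h3, h4⟩ | ⟨h3, h4⟩)⟩)
          · exact h1
          · exact absurd h4 hw
          · exact absurd (h4.trans (h.symm)) (Ne.symm h2)
        · exact fun h1 => Or.inl h1
      · refine (card_filter_diff W _ _ {x} ?_).trans (by simp)
        intro w _ hw
        rw [Finset.mem_singleton] at hw
        rw [ad_insert]
        constructor
        · rintro (h1 | ⟨h2, (⟨h3, h4⟩ | ⟨h3, h4⟩)⟩)
          · exact h1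
          · exact absurd (h4.trans (h.symm)) (Ne.symm h2)
          · exact absurd h4 hw
        · exact fun h1 => Or.inl h1
    · rw [if_neg h]
      rw [Sym2.mem_iff] at h
      push Not at h
      refine (card_filter_diff W _ _ ∅ ?_).trans (by simp)
      intro w _ _
      rw [ad_insert]
      constructor
      · rintro (h1 | ⟨h2, (⟨h3, h4⟩ | ⟨h3, h4⟩)⟩)
        · exact h1
        · exact absurd h3 h.1
        · exact absurd h3 h.2
      · exact fun h1 => Or.inl h1

/-- the vertices whose status with respect to `v` can change when `xy` is added -/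
def chg (S : Finset (Sym2 (Fin n))) (x y v : Fin n) : Finset (Fin n) :=
  Finset.univ.filter (fun w => (v = x ∧ (w = y ∨ ad S y w)) ∨ (v = y ∧ (w = x ∨ ad S x w)) ∨
    (w = x ∧ ad S y v) ∨ (w = y ∧ ad S x v))

lemma two_insert {S : Finset (Sym2 (Fin n))} {x y v w : Fin n} (hxy : x ≠ y)
    (hw : w ∉ chg S x y v) : two (insert s(x, y) S) v w ↔ two S v w := by
  have hw' : ¬ ((v = x ∧ (w = y ∨ ad S y w)) ∨ (v = y ∧ (w = x ∨ ad S x w)) ∨
    (w = x ∧ ad S y v) ∨ (w = y ∧ ad S x v)) := by
    simpa [chg] using hw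
  push Not at hw'
  obtain ⟨h1, h2, h3, h4⟩ := hw'
  have hadj : ad (insert s(x, y) S) v w ↔ ad S v w := by
    rw [ad_insert]
    constructor
    · rintro (h | ⟨_, (⟨h5, h6⟩ | ⟨h5, h6⟩)⟩)
      · exact h
      · exact absurd h6 (h1 h5).1
      · exact absurd h6 (h2 h5).1
    · exact fun h => Or.inl h
  unfold two
  rw [hadj]
  constructor
  · rintro ⟨hvw, hn, u, hu1, hu2⟩
    refine ⟨hvw, hn, u, ?_⟩
    rw [ad_insert] at hu1 hu2
    rcases hu1 with hu1 | ⟨_, (⟨h5, h6⟩ | ⟨h5, h6⟩)⟩
    · rcases hu2 with hu2 | ⟨_, (⟨h7, h8⟩ | ⟨h7, h8⟩)⟩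
      · exact ⟨hu1, hu2⟩
      · -- u = x, w = y
        exfalso
        exact h4 h8 (ad_symm (h7 ▸ hu1))
      · exfalso
        exact h3 h8 (ad_symm (h7 ▸ hu1))
    · -- v = x, u = y
      rcases hu2 with hu2 | ⟨_, (⟨h7, h8⟩ | ⟨h7, h8⟩)⟩
      · exfalso; exact (h1 h5).2 (h6 ▸ hu2)
      · exfalso; exact hxy (h7.symm.trans h6)
      · exfalso; exact hvw (h5.trans h8.symm)
    · -- v = y, u = x
      rcases hu2 with hu2 | ⟨_, (⟨h7, h8⟩ | ⟨h7, h8⟩)⟩
      · exfalso; exact (h2 h5).2 (h6 ▸ hu2)
      · exfalso; exact hvw (h5.trans h8.symm)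
      · exfalso; exact hxy (h6.symm.trans h7)
  · rintro ⟨hvw, hn, u, hu1, hu2⟩
    exact ⟨hvw, hn, u, ad_mono (Finset.subset_insert _ _) hu1,
      ad_mono (Finset.subset_insert _ _) hu2⟩

lemma cW_insert (W : Finset (Fin n)) (v : Fin n) (S : Finset (Sym2 (Fin n)))
    {x y : Fin n} (hxy : x ≠ y) :
    |cW W v (insert s(x, y) S) - cW W v S| ≤ ((chg S x y v).card : ℝ) := by
  unfold cW
  exact card_filter_diff W _ _ _ fun w _ hw => two_insert hxy hw

lemma chg_card (S : Finset (Sym2 (Fin n))) (x y v : Fin n) :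
    (chg S x y v).card ≤ (if v = x then 1 + dg S y else 0) + (if v = y then 1 + dg S x else 0)
      + (if ad S y v then 1 else 0) + (if ad S x v then 1 else 0) := by
  have : chg S x y v ⊆ (((if v = x then insert y (nb S y) else ∅)
      ∪ (if v = y then insert x (nb S x) else ∅))
      ∪ (if ad S y v then {x} else ∅)) ∪ (if ad S x v then {y} else ∅) := by
    intro w hw
    simp only [chg, Finset.mem_filter, Finset.mem_univ, true_and] at hw
    simp only [Finset.mem_union]
    rcases hw with ⟨h1, h2⟩ | ⟨h1, h2⟩ | ⟨h1, h2⟩ | ⟨h1, h2⟩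
    · left; left; left
      rw [if_pos h1, Finset.mem_insert, mem_nb]; exact h2
    · left; left; right
      rw [if_pos h1, Finset.mem_insert, mem_nb]; exact h2
    · left; right
      rw [if_pos h2, Finset.mem_singleton]; exact h1
    · right
      rw [if_pos h2, Finset.mem_singleton]; exact h1
  refine (Finset.card_le_card this).trans ?_
  refine (Finset.card_union_le _ _).trans ?_
  refine Nat.add_le_add ((Finset.card_union_le _ _).trans ?_) ?_
  · refine Nat.add_le_add ((Finset.card_union_le _ _).trans ?_) ?_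
    · refine Nat.add_le_add ?_ ?_
      · split_ifs with h
        · refine (Finset.card_insert_le _ _).trans ?_
          unfold dg; omega
        · simp
      · split_ifs with h
        · refine (Finset.card_insert_le _ _).trans ?_
          unfold dg; omega
        · simp
    · split_ifs <;> simp
  · split_ifs <;> simp

/-- total change of the distance-two counts -/
lemma cW_total (W : Finset (Fin n)) (S : Finset (Sym2 (Fin n))) {x y : Fin n} (hxy : x ≠ y) :
    ∑ v, |cW W v (insert s(x, y) S) - cW W v S| ≤ 2 + 2 * (dg S x : ℝ) + 2 * (dg S y : ℝ) := by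
  have h1 : ∑ v, |cW W v (insert s(x, y) S) - cW W v S|
      ≤ ∑ v : Fin n, (((if v = x then 1 + dg S y else 0) + (if v = y then 1 + dg S x else 0)
      + (if ad S y v then 1 else 0) + (if ad S x v then 1 else 0) : ℕ) : ℝ) := by
    refine Finset.sum_le_sum fun v _ => (cW_insert W v S hxy).trans ?_
    exact_mod_cast chg_card S x y v
  refine h1.trans ?_
  rw [← Nat.cast_sum, Finset.sum_add_distrib, Finset.sum_add_distrib, Finset.sum_add_distrib]
  have e1 : ∑ v : Fin n, (if v = x then 1 + dg S y else 0) = 1 + dg S y := by simp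
  have e2 : ∑ v : Fin n, (if v = y then 1 + dg S x else 0) = 1 + dg S x := by simp
  have e3 : ∀ z : Fin n, ∑ v : Fin n, (if ad S z v then 1 else 0) = dg S z := by
    intro z
    rw [Finset.sum_ite]; simp [dg, nb]
  rw [e1, e2, e3, e3]
  push_cast
  linarith

/-- action of a permutation of the vertices on edge sets -/
noncomputable def relab (π : Equiv.Perm (Fin n)) : Equiv.Perm (Sym2 (Fin n)) :=
  Equiv.ofBijective (Sym2.map π) (by
    constructor
    · exact Sym2.map.injective π.injective
    · intro e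
      refine ⟨Sym2.map π.symm e, ?_⟩
      rw [Sym2.map_map]
      have : (π ∘ π.symm : Fin n → Fin n) = id := by ext x; simp
      rw [this, Sym2.map_id]; rfl)

lemma relab_mk (π : Equiv.Perm (Fin n)) (x y : Fin n) : relab π s(x, y) = s(π x, π y) := rfl

lemma relab_E (π : Equiv.Perm (Fin n)) : (E n).map (relab π).toEmbedding = E n := by
  have hsub : (E n).map (relab π).toEmbedding ⊆ E n := by
    intro e he
    rw [Finset.mem_map] at he
    obtain ⟨f, hf, rfl⟩ := he
    induction f using Sym2.ind with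
    | _ x y =>
      rw [mk_mem_E] at hf
      change relab π s(x, y) ∈ E n
      rw [relab_mk, mk_mem_E]
      exact fun h => hf (π.injective h)
  exact Finset.eq_of_subset_of_card_le hsub (by rw [Finset.card_map])

lemma ad_relab (π : Equiv.Perm (Fin n)) (S : Finset (Sym2 (Fin n))) (x y : Fin n) :
    ad (S.map (relab π).toEmbedding) (π x) (π y) ↔ ad S x y := by
  unfold ad
  rw [← relab_mk]
  have : (relab π) s(x, y) ∈ S.map (relab π).toEmbedding ↔ s(x, y) ∈ S := by
    rw [Finset.mem_map_equiv]; simp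
  rw [this]
  exact and_congr (not_congr π.injective.eq_iff) Iff.rfl

lemma two_relab (π : Equiv.Perm (Fin n)) (S : Finset (Sym2 (Fin n))) (x y : Fin n) :
    two (S.map (relab π).toEmbedding) (π x) (π y) ↔ two S x y := by
  unfold two
  rw [ad_relab]
  have : (∃ u, ad (S.map (relab π).toEmbedding) (π x) u
      ∧ ad (S.map (relab π).toEmbedding) u (π y)) ↔ ∃ u, ad S x u ∧ ad S u y := by
    constructor
    · rintro ⟨u, h1, h2⟩
      refine ⟨π.symm u, ?_, ?_⟩
      · rw [← ad_relab π]; simpa using h1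
      · rw [← ad_relab π]; simpa using h2
    · rintro ⟨u, h1, h2⟩
      exact ⟨π u, (ad_relab π S x u).mpr h1, (ad_relab π S u y).mpr h2⟩
  rw [this]
  exact and_congr (not_congr π.injective.eq_iff) Iff.rfl

lemma aW_relab (π : Equiv.Perm (Fin n)) (W : Finset (Fin n)) (hW : ∀ w, w ∈ W ↔ π w ∈ W)
    (v : Fin n) (S : Finset (Sym2 (Fin n))) :
    aW W (π v) (S.map (relab π).toEmbedding) = aW W v S := by
  unfold aW
  congr 1
  symm
  refine Finset.card_bij (fun w _ => π w) ?_ ?_ ?_
  · intro w hw
    rw [Finset.mem_filter] at hw ⊢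
    exact ⟨(hW w).mp hw.1, (ad_relab π S v w).mpr hw.2⟩
  · intro w _ w' _ h; exact π.injective h
  · intro w hw
    rw [Finset.mem_filter] at hw
    refine ⟨π.symm w, ?_, by simp⟩
    rw [Finset.mem_filter]
    refine ⟨(hW _).mpr (by simpa using hw.1), ?_⟩
    rw [← ad_relab π]; simpa using hw.2

lemma cW_relab (π : Equiv.Perm (Fin n)) (W : Finset (Fin n)) (hW : ∀ w, w ∈ W ↔ π w ∈ W)
    (v : Fin n) (S : Finset (Sym2 (Fin n))) :
    cW W (π v) (S.map (relab π).toEmbedding) = cW W v S := by
  unfold cW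
  congr 1
  symm
  refine Finset.card_bij (fun w _ => π w) ?_ ?_ ?_
  · intro w hw
    rw [Finset.mem_filter] at hw ⊢
    exact ⟨(hW w).mp hw.1, (two_relab π S v w).mpr hw.2⟩
  · intro w _ w' _ h; exact π.injective h
  · intro w hw
    rw [Finset.mem_filter] at hw
    refine ⟨π.symm w, ?_, by simp⟩
    rw [Finset.mem_filter]
    refine ⟨(hW _).mpr (by simpa using hw.1), ?_⟩
    rw [← two_relab π]; simpa using hw.2

/-- the mean depends on the vertex only through membership in `W` -/
lemma mean_symm (p : ℝ) (W : Finset (Fin n)) (F : Fin n → Finset (Sym2 (Fin n)) → ℝ)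
    (hF : ∀ (π : Equiv.Perm (Fin n)), (∀ w, w ∈ W ↔ π w ∈ W) →
      ∀ v S, F (π v) (S.map (relab π).toEmbedding) = F v S)
    {v v' : Fin n} (h : v ∈ W ↔ v' ∈ W) :
    ex p (E n) (F v) = ex p (E n) (F v') := by
  have hπ : ∀ w, w ∈ W ↔ Equiv.swap v v' w ∈ W := by
    intro w
    by_cases h1 : w = v
    · subst h1; rw [Equiv.swap_apply_left]; exact h
    · by_cases h2 : w = v'
      · subst h2; rw [Equiv.swap_apply_right]; exact h.symm
      · rw [Equiv.swap_apply_of_ne_of_ne h1 h2]
  rw [← ex_map p (relab (Equiv.swap v v')) (relab_E _) (F v')]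
  refine ex_congr p fun S _ => ?_
  have := hF (Equiv.swap v v') hπ v S
  rw [Equiv.swap_apply_left] at this
  exact this.symm

end Pool.Agent.MD437
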