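import Mathlib

/-! Expectation over a random subset of a finite set (every element present independently with
probability `p`): basic rules, an exponential moment bound for functions with bounded differences,
the Efron-Stein bound, and a Lipschitz extension lemma. -/

set_option linter.unusedSectionVars false

namespace Pool.Agent.MD437

open Finset

variable {ι : Type*} [DecidableEq ι]

/-- expectation of `f` over the random subset of `A` -/
noncomputable def ex (p : ℝ) (A : Finset ι) (f : Finset ι → ℝ) : ℝ :=
  ∑ S ∈ A.powerset, p ^ S.card * (1 - p) ^ (A.card - S.card) * f S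

lemma ex_empty (p : ℝ) (f : Finset ι → ℝ) : ex p (∅ : Finset ι) f = f ∅ := by
  simp [ex]

lemma ex_insert (p : ℝ) {A : Finset ι} {a : ι} (ha : a ∉ A) (f : Finset ι → ℝ) :
    ex p (insert a A) f
      = (1 - p) * ex p A f + p * ex p A (fun S => f (insert a S)) := by
  unfold ex
  rw [Finset.sum_powerset_insert ha, Finset.mul_sum, Finset.mul_sum]
  congr 1
  · refine Finset.sum_congr rfl fun S hS => ?_
    rw [Finset.mem_powerset] at hS
    have h1 : S.card ≤ A.card := Finset.card_le_card hS
    rw [Finset.card_insert_of_notMem ha]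
    have h2 : A.card + 1 - S.card = (A.card - S.card) + 1 := by omega
    rw [h2, pow_succ]; ring
  · refine Finset.sum_congr rfl fun S hS => ?_
    rw [Finset.mem_powerset] at hS
    have h1 : S.card ≤ A.card := Finset.card_le_card hS
    have h3 : a ∉ S := fun h => ha (hS h)
    rw [Finset.card_insert_of_notMem ha, Finset.card_insert_of_notMem h3]
    have h2 : A.card + 1 - (S.card + 1) = A.card - S.card := by omega
    rw [h2, pow_succ]; ring

lemma ex_congr (p : ℝ) {A : Finset ι} {f g : Finset ι → ℝ} (h : ∀ S ⊆ A, f S = g S) :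
    ex p A f = ex p A g := by
  unfold ex
  refine Finset.sum_congr rfl fun S hS => ?_
  rw [Finset.mem_powerset] at hS
  rw [h S hS]

lemma ex_const (p : ℝ) (A : Finset ι) (c : ℝ) : ex p A (fun _ => c) = c := by
  induction A using Finset.induction_on with
  | empty => simp [ex_empty]
  | insert a A ha ih => rw [ex_insert p ha, ih]; ring

lemma ex_add (p : ℝ) (A : Finset ι) (f g : Finset ι → ℝ) :
    ex p A (fun S => f S + g S) = ex p A f + ex p A g := by
  unfold ex
  rw [← Finset.sum_add_distrib]
  exact Finset.sum_congr rfl fun S _ => by ring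

lemma ex_sub (p : ℝ) (A : Finset ι) (f g : Finset ι → ℝ) :
    ex p A (fun S => f S - g S) = ex p A f - ex p A g := by
  unfold ex
  rw [← Finset.sum_sub_distrib]
  exact Finset.sum_congr rfl fun S _ => by ring

lemma ex_mul_left (p : ℝ) (A : Finset ι) (c : ℝ) (f : Finset ι → ℝ) :
    ex p A (fun S => c * f S) = c * ex p A f := by
  unfold ex
  rw [Finset.mul_sum]
  exact Finset.sum_congr rfl fun S _ => by ring

lemma ex_sum (p : ℝ) (A : Finset ι) {κ : Type*} (s : Finset κ) (f : κ → Finset ι → ℝ) :
    ex p A (fun S => ∑ k ∈ s, f k S) = ∑ k ∈ s, ex p A (f k) := by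
  classical
  unfold ex
  rw [Finset.sum_comm]
  exact Finset.sum_congr rfl fun S _ => by rw [Finset.mul_sum]

lemma ex_mono {p : ℝ} (hp0 : 0 ≤ p) (hp1 : p ≤ 1) {A : Finset ι} {f g : Finset ι → ℝ}
    (h : ∀ S ⊆ A, f S ≤ g S) : ex p A f ≤ ex p A g := by
  unfold ex
  refine Finset.sum_le_sum fun S hS => ?_
  rw [Finset.mem_powerset] at hS
  exact mul_le_mul_of_nonneg_left (h S hS)
    (mul_nonneg (pow_nonneg hp0 _) (pow_nonneg (by linarith) _))

lemma ex_nonneg {p : ℝ} (hp0 : 0 ≤ p) (hp1 : p ≤ 1) {A : Finset ι} {f : Finset ι → ℝ}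
    (h : ∀ S ⊆ A, 0 ≤ f S) : 0 ≤ ex p A f := by
  have := ex_mono hp0 hp1 (A := A) (f := fun _ => 0) (g := f) h
  rwa [ex_const] at this

/-- Iterated expectation over disjoint ground sets. -/
lemma ex_union (p : ℝ) {A B : Finset ι} (hAB : Disjoint A B) (f : Finset ι → ℝ) :
    ex p (A ∪ B) f = ex p A (fun S => ex p B (fun T => f (S ∪ T))) := by
  induction A using Finset.induction_on generalizing f with
  | empty => simp [ex_empty]
  | insert a A ha ih =>
    rw [Finset.disjoint_insert_left] at hAB
    have hna : a ∉ A ∪ B := by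
      rw [Finset.mem_union]; push Not; exact ⟨ha, hAB.1⟩
    rw [Finset.insert_union, ex_insert p hna, ex_insert p ha, ih hAB.2, ih hAB.2]
    simp only [Finset.insert_union]

lemma ex_mem (p : ℝ) {A : Finset ι} {e : ι} (he : e ∈ A) :
    ex p A (fun S => if e ∈ S then (1 : ℝ) else 0) = p := by
  have hA : A = insert e (A.erase e) := (Finset.insert_erase he).symm
  rw [hA, ex_insert p (Finset.notMem_erase e A)]
  have h1 : ex p (A.erase e) (fun S => if e ∈ S then (1 : ℝ) else 0) = 0 := by
    refine (ex_congr p fun S hS => ?_).trans (ex_const p (A.erase e) 0)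
    rw [if_neg (fun h => Finset.notMem_erase e A (hS h))]
  have h2 : ex p (A.erase e) (fun S => if e ∈ insert e S then (1 : ℝ) else 0) = 1 := by
    refine (ex_congr p fun S _ => ?_).trans (ex_const p (A.erase e) 1)
    rw [if_pos (Finset.mem_insert_self e S)]
  rw [h1, h2]; ring

/-- the probability that the random subset misses a given set -/
lemma ex_miss (p : ℝ) {A F : Finset ι} (hF : F ⊆ A) :
    ex p A (fun S => if Disjoint S F then (1 : ℝ) else 0) = (1 - p) ^ F.card := by
  induction A using Finset.induction_on generalizing F with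
  | empty =>
    have : F = ∅ := Finset.subset_empty.mp hF
    subst this; simp [ex_empty]
  | insert a A ha ih =>
    rw [ex_insert p ha]
    by_cases haF : a ∈ F
    · have h2 : ex p A (fun S => if Disjoint (insert a S) F then (1 : ℝ) else 0) = 0 := by
        refine (ex_congr p fun S _ => ?_).trans (ex_const p A 0)
        rw [if_neg]
        intro h
        exact Finset.disjoint_left.mp h (Finset.mem_insert_self a S) haF
      have hsub : F.erase a ⊆ A := by
        intro x hx
        rw [Finset.mem_erase] at hx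
        exact (Finset.mem_insert.mp (hF hx.2)).resolve_left hx.1
      have h1 : ex p A (fun S => if Disjoint S F then (1 : ℝ) else 0)
          = ex p A (fun S => if Disjoint S (F.erase a) then (1 : ℝ) else 0) := by
        refine ex_congr p fun S hS => ?_
        have : Disjoint S F ↔ Disjoint S (F.erase a) := by
          constructor
          · exact fun h => Finset.disjoint_of_subset_right (Finset.erase_subset a F) h
          · intro h
            rw [Finset.disjoint_left] at h ⊢
            intro x hx hxF
            exact h hx (Finset.mem_erase.mpr ⟨fun hh => ha (hS (hh ▸ hx)), hxF⟩)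
        simp only [this]
      rw [h1, h2, ih hsub, Finset.card_erase_of_mem haF]
      have hc : 0 < F.card := Finset.card_pos.mpr ⟨a, haF⟩
      obtain ⟨m, hm⟩ : ∃ m, F.card = m + 1 := ⟨F.card - 1, by omega⟩
      rw [hm]; simp [pow_succ]; ring
    · have hsub : F ⊆ A := by
        intro x hx
        exact (Finset.mem_insert.mp (hF hx)).resolve_left (fun h => haF (h ▸ hx))
      have h2 : ex p A (fun S => if Disjoint (insert a S) F then (1 : ℝ) else 0)
          = ex p A (fun S => if Disjoint S F then (1 : ℝ) else 0) := by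
        refine ex_congr p fun S _ => ?_
        have : Disjoint (insert a S) F ↔ Disjoint S F := by
          rw [Finset.disjoint_insert_left]; exact ⟨fun h => h.2, fun h => ⟨haF, h⟩⟩
        simp only [this]
      rw [h2, ih hsub]; ring

/-- the probability of an event -/
noncomputable def pr (p : ℝ) (A : Finset ι) (Q : Finset ι → Prop) : ℝ := by
  classical exact ex p A (fun S => if Q S then (1 : ℝ) else 0)

lemma pr_def (p : ℝ) (A : Finset ι) (Q : Finset ι → Prop) [DecidablePred Q] :
    pr p A Q = ex p A (fun S => if Q S then (1 : ℝ) else 0) := by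
  unfold pr
  refine ex_congr p fun S _ => ?_
  by_cases h : Q S <;> simp [h]

lemma pr_nonneg {p : ℝ} (hp0 : 0 ≤ p) (hp1 : p ≤ 1) (A : Finset ι) (Q : Finset ι → Prop) :
    0 ≤ pr p A Q := by
  classical
  unfold pr
  exact ex_nonneg hp0 hp1 fun S _ => by split_ifs <;> norm_num

lemma pr_mono {p : ℝ} (hp0 : 0 ≤ p) (hp1 : p ≤ 1) {A : Finset ι} {Q R : Finset ι → Prop}
    (h : ∀ S ⊆ A, Q S → R S) : pr p A Q ≤ pr p A R := by
  classical
  unfold pr
  refine ex_mono hp0 hp1 fun S hS => ?_
  by_cases h1 : Q S
  · simp [h1, h S hS h1]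
  · rw [if_neg h1]; split_ifs <;> norm_num

lemma pr_union {κ : Type*} {p : ℝ} (hp0 : 0 ≤ p) (hp1 : p ≤ 1) (A : Finset ι) (s : Finset κ)
    (Q : κ → Finset ι → Prop) :
    pr p A (fun S => ∃ k ∈ s, Q k S) ≤ ∑ k ∈ s, pr p A (Q k) := by
  classical
  have h : ∑ k ∈ s, pr p A (Q k)
      = ex p A (fun S => ∑ k ∈ s, if Q k S then (1 : ℝ) else 0) := by
    rw [ex_sum]
    exact Finset.sum_congr rfl fun k _ => pr_def p A (Q k)
  rw [h, pr_def]
  refine ex_mono hp0 hp1 fun S _ => ?_
  by_cases h1 : ∃ k ∈ s, Q k S
  · rw [if_pos h1]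
    obtain ⟨k, hk, hQ⟩ := h1
    have := Finset.single_le_sum (f := fun k => if Q k S then (1 : ℝ) else 0)
      (fun i _ => by split_ifs <;> norm_num) hk
    simpa [hQ] using this
  · rw [if_neg h1]
    exact Finset.sum_nonneg fun i _ => by split_ifs <;> norm_num

lemma pr_or {p : ℝ} (hp0 : 0 ≤ p) (hp1 : p ≤ 1) (A : Finset ι) (Q R : Finset ι → Prop) :
    pr p A (fun S => Q S ∨ R S) ≤ pr p A Q + pr p A R := by
  classical
  rw [pr_def p A Q, pr_def p A R, pr_def, ← ex_add]
  refine ex_mono hp0 hp1 fun S _ => ?_
  by_cases h1 : Q S <;> by_cases h2 : R S <;> simp [h1, h2]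

/-- Markov's inequality with an exponential -/
lemma pr_exp {p : ℝ} (hp0 : 0 ≤ p) (hp1 : p ≤ 1) (A : Finset ι) (f : Finset ι → ℝ) (t : ℝ) :
    pr p A (fun S => t ≤ f S) ≤ Real.exp (-t) * ex p A (fun S => Real.exp (f S)) := by
  classical
  rw [pr_def, ← ex_mul_left]
  refine ex_mono hp0 hp1 fun S _ => ?_
  by_cases h1 : t ≤ f S
  · rw [if_pos h1, ← Real.exp_add]
    exact Real.one_le_exp (by linarith)
  · rw [if_neg h1]; positivity

/-- invariance under a permutation of the ground set -/
lemma ex_map (p : ℝ) {A : Finset ι} (σ : Equiv.Perm ι) (hσ : A.map σ.toEmbedding = A)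
    (f : Finset ι → ℝ) :
    ex p A (fun S => f (S.map σ.toEmbedding)) = ex p A f := by
  unfold ex
  refine Finset.sum_bij' (fun S _ => S.map σ.toEmbedding) (fun S _ => S.map σ.symm.toEmbedding)
    ?_ ?_ ?_ ?_ ?_
  · intro S hS
    rw [Finset.mem_powerset] at hS ⊢
    rw [← hσ]
    exact Finset.map_subset_map.mpr hS
  · intro S hS
    rw [Finset.mem_powerset] at hS ⊢
    have : A.map σ.symm.toEmbedding = A := by
      conv_lhs => rw [← hσ]
      rw [Finset.map_map]
      ext x; simp
    rw [← this]
    exact Finset.map_subset_map.mpr hS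
  · intro S _
    rw [Finset.map_map]; ext x; simp
  · intro S _
    rw [Finset.map_map]; ext x; simp
  · intro S _
    rw [Finset.card_map]

/-- Elementary inequality: `(1-p)+p e^t ≤ exp (p t + p t^2)` for `|t| ≤ 1`. -/
lemma two_point {p t : ℝ} (hp0 : 0 ≤ p) (ht : |t| ≤ 1) :
    (1 - p) + p * Real.exp t ≤ Real.exp (p * t + p * t ^ 2) := by
  have h1 : Real.exp t ≤ 1 + t + t ^ 2 := by
    have := Real.abs_exp_sub_one_sub_id_le ht
    have h2 := (abs_le.mp this).2
    linarith
  have h3 : p * t + p * t ^ 2 + 1 ≤ Real.exp (p * t + p * t ^ 2) := Real.add_one_le_exp _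
  nlinarith [mul_le_mul_of_nonneg_left h1 hp0]

/-- Exponential moment bound for functions with bounded differences. -/
lemma mgf {p : ℝ} (hp0 : 0 ≤ p) (hp1 : p ≤ 1) (A : Finset ι) (c : ι → ℝ)
    (lam : ℝ) (hlam : ∀ i ∈ A, |lam| * c i ≤ 1)
    (f : Finset ι → ℝ)
    (hf : ∀ i ∈ A, ∀ S : Finset ι, |f (insert i S) - f S| ≤ c i) :
    ex p A (fun S => Real.exp (lam * f S))
      ≤ Real.exp (lam * ex p A f + lam ^ 2 * p * ∑ i ∈ A, c i ^ 2) := by
  induction A using Finset.induction_on generalizing f with
  | empty => simp [ex_empty]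
  | insert a A ha ih =>
    have hA0 : ∀ i ∈ A, |lam| * c i ≤ 1 := fun i hi => hlam i (Finset.mem_insert_of_mem hi)
    have h0 := ih hA0 f (fun i hi S => hf i (Finset.mem_insert_of_mem hi) S)
    have h1 := ih hA0 (fun S => f (insert a S)) (fun i hi S => by
      have := hf i (Finset.mem_insert_of_mem hi) (insert a S)
      simpa [Finset.insert_comm] using this)
    rw [ex_insert p ha, ex_insert p ha]
    set m0 := ex p A f with hm0
    set m1 := ex p A (fun S => f (insert a S)) with hm1
    set V := ∑ i ∈ A, c i ^ 2 with hV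
    have hd : |m1 - m0| ≤ c a := by
      have hx : m1 - m0 = ex p A (fun S => f (insert a S) - f S) := by
        rw [hm0, hm1, ← ex_sub]
      rw [hx, abs_le]
      constructor
      · have := ex_mono hp0 hp1 (A := A) (f := fun _ => - c a)
          (g := fun S => f (insert a S) - f S)
          (fun S _ => (abs_le.mp (hf a (Finset.mem_insert_self a A) S)).1)
        rwa [ex_const] at this
      · have := ex_mono hp0 hp1 (A := A) (g := fun _ => c a)
          (f := fun S => f (insert a S) - f S)
          (fun S _ => (abs_le.mp (hf a (Finset.mem_insert_self a A) S)).2)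
        rwa [ex_const] at this
    have ht : |lam * (m1 - m0)| ≤ 1 := by
      rw [abs_mul]
      exact (mul_le_mul_of_nonneg_left hd (abs_nonneg _)).trans
        (hlam a (Finset.mem_insert_self a A))
    have h2 := two_point hp0 ht
    have hsq : (lam * (m1 - m0)) ^ 2 ≤ lam ^ 2 * c a ^ 2 := by
      rw [mul_pow]
      refine mul_le_mul_of_nonneg_left ?_ (sq_nonneg _)
      rw [← sq_abs (m1 - m0)]
      exact pow_le_pow_left₀ (abs_nonneg _) hd 2
    rw [Finset.sum_insert ha]
    have e0 : Real.exp (lam * m0 + lam ^ 2 * p * V)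
        = Real.exp (lam ^ 2 * p * V) * Real.exp (lam * m0) := by
      rw [← Real.exp_add]; ring_nf
    have e1 : Real.exp (lam * m1 + lam ^ 2 * p * V)
        = Real.exp (lam ^ 2 * p * V) * (Real.exp (lam * m0) * Real.exp (lam * (m1 - m0))) := by
      rw [← Real.exp_add, ← Real.exp_add]; ring_nf
    calc (1 - p) * ex p A (fun S => Real.exp (lam * f S))
          + p * ex p A (fun S => Real.exp (lam * f (insert a S)))
        ≤ (1 - p) * Real.exp (lam * m0 + lam ^ 2 * p * V)
          + p * Real.exp (lam * m1 + lam ^ 2 * p * V) := by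
          have hp2 : 0 ≤ 1 - p := by linarith
          exact add_le_add (mul_le_mul_of_nonneg_left h0 hp2) (mul_le_mul_of_nonneg_left h1 hp0)
      _ = Real.exp (lam ^ 2 * p * V) * Real.exp (lam * m0)
            * ((1 - p) + p * Real.exp (lam * (m1 - m0))) := by
          rw [e0, e1]; ring
      _ ≤ Real.exp (lam ^ 2 * p * V) * Real.exp (lam * m0)
            * Real.exp (p * (lam * (m1 - m0)) + p * (lam * (m1 - m0)) ^ 2) :=
          mul_le_mul_of_nonneg_left h2 (by positivity)
      _ = Real.exp (lam ^ 2 * p * V + lam * m0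
            + (p * (lam * (m1 - m0)) + p * (lam * (m1 - m0)) ^ 2)) := by
          rw [← Real.exp_add, ← Real.exp_add]
      _ ≤ _ := by
          apply Real.exp_le_exp.mpr
          have := mul_le_mul_of_nonneg_left hsq hp0
          nlinarith [this]

/-- Efron-Stein bound. -/
lemma efron_stein {p : ℝ} (hp0 : 0 ≤ p) (hp1 : p ≤ 1) (A : Finset ι) (f : Finset ι → ℝ) :
    ex p A (fun S => f S ^ 2) - (ex p A f) ^ 2
      ≤ p * ∑ i ∈ A, ex p A (fun S => (f (insert i S) - f (S.erase i)) ^ 2) := by
  induction A using Finset.induction_on generalizing f with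
  | empty => simp [ex_empty]
  | insert a A ha ih =>
    have h0 := ih f
    have h1 := ih (fun S => f (insert a S))
    rw [ex_insert p ha, ex_insert p ha, Finset.sum_insert ha]
    set m0 := ex p A f with hm0
    set m1 := ex p A (fun S => f (insert a S)) with hm1
    -- the new coordinate
    have hnew : ex p (insert a A) (fun S => (f (insert a S) - f (S.erase a)) ^ 2)
        = ex p A (fun S => (f (insert a S) - f S) ^ 2) := by
      rw [ex_insert p ha]
      have c1 : ex p A (fun S => (f (insert a S) - f (S.erase a)) ^ 2)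
          = ex p A (fun S => (f (insert a S) - f S) ^ 2) := by
        refine ex_congr p fun S hS => ?_
        rw [Finset.erase_eq_of_notMem (fun h => ha (hS h))]
      have c2 : ex p A (fun S => (f (insert a (insert a S)) - f ((insert a S).erase a)) ^ 2)
          = ex p A (fun S => (f (insert a S) - f S) ^ 2) := by
        refine ex_congr p fun S hS => ?_
        rw [Finset.insert_idem, Finset.erase_insert (fun h => ha (hS h))]
      rw [c1, c2]; ring
    have hold : ∀ i ∈ A, ex p (insert a A) (fun S => (f (insert i S) - f (S.erase i)) ^ 2)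
        = (1 - p) * ex p A (fun S => (f (insert i S) - f (S.erase i)) ^ 2)
          + p * ex p A (fun S => (f (insert a (insert i S)) - f (insert a (S.erase i))) ^ 2) := by
      intro i hi
      rw [ex_insert p ha]
      congr 2
      refine ex_congr p fun S hS => ?_
      have hia : a ≠ i := fun h => ha (h ▸ hi)
      rw [Finset.insert_comm i a, Finset.erase_insert_of_ne hia]
    rw [hnew, Finset.sum_congr rfl hold, Finset.sum_add_distrib, ← Finset.mul_sum,
      ← Finset.mul_sum]
    have hjen : (m1 - m0) ^ 2 ≤ ex p A (fun S => (f (insert a S) - f S) ^ 2) := by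
      have hx : m1 - m0 = ex p A (fun S => f (insert a S) - f S) := by
        rw [hm0, hm1, ← ex_sub]
      have hy : 0 ≤ ex p A (fun S => ((f (insert a S) - f S) - (m1 - m0)) ^ 2) :=
        ex_nonneg hp0 hp1 fun S _ => sq_nonneg _
      have hz : ex p A (fun S => ((f (insert a S) - f S) - (m1 - m0)) ^ 2)
          = ex p A (fun S => (f (insert a S) - f S) ^ 2)
            + ex p A (fun S => (-2 * (m1 - m0)) * (f (insert a S) - f S))
            + ex p A (fun _ => (m1 - m0) ^ 2) := by
        rw [← ex_add, ← ex_add]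
        exact ex_congr p fun S _ => by ring
      rw [hz, ex_mul_left, ex_const, ← hx] at hy
      nlinarith [hy]
    have hp2 : 0 ≤ 1 - p := by linarith
    have k0 := mul_le_mul_of_nonneg_left h0 hp2
    have k1 := mul_le_mul_of_nonneg_left h1 hp0
    have k2 : p * (1 - p) * (m1 - m0) ^ 2
        ≤ p * ex p A (fun S => (f (insert a S) - f S) ^ 2) := by
      have hn : 0 ≤ ex p A (fun S => (f (insert a S) - f S) ^ 2) :=
        ex_nonneg hp0 hp1 fun S _ => sq_nonneg _
      have a1 : (1 - p) * (m1 - m0) ^ 2 ≤ ex p A (fun S => (f (insert a S) - f S) ^ 2) := by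
        nlinarith [sq_nonneg (m1 - m0)]
      nlinarith [mul_le_mul_of_nonneg_left a1 hp0]
    nlinarith [k0, k1, k2]

/-- First absolute moment from a second moment. -/
lemma abs_dev {p : ℝ} (hp0 : 0 ≤ p) (hp1 : p ≤ 1) (A : Finset ι) (f : Finset ι → ℝ) {σ : ℝ}
    (hσ : 0 < σ) (h : ex p A (fun S => f S ^ 2) - (ex p A f) ^ 2 ≤ σ ^ 2) :
    ex p A (fun S => |f S - ex p A f|) ≤ σ := by
  set m := ex p A f with hm
  have h1 : ex p A (fun S => |f S - m|)
      ≤ ex p A (fun S => (1 / (2 * σ)) * (f S - m) ^ 2 + σ / 2) := by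
    refine ex_mono hp0 hp1 fun S _ => ?_
    have h2 : 0 ≤ (|f S - m| - σ) ^ 2 := sq_nonneg _
    have h3 : |f S - m| ^ 2 = (f S - m) ^ 2 := sq_abs _
    have h4 : 2 * σ * |f S - m| ≤ (f S - m) ^ 2 + σ ^ 2 := by nlinarith
    have h5 : |f S - m| ≤ ((f S - m) ^ 2 + σ ^ 2) / (2 * σ) := by
      rw [le_div_iff₀ (by positivity)]; linarith
    calc |f S - m| ≤ ((f S - m) ^ 2 + σ ^ 2) / (2 * σ) := h5
      _ = (1 / (2 * σ)) * (f S - m) ^ 2 + σ / 2 := by field_simp
  have h6 : ex p A (fun S => (1 / (2 * σ)) * (f S - m) ^ 2 + σ / 2)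
      = (1 / (2 * σ)) * (ex p A (fun S => f S ^ 2) - m ^ 2) + σ / 2 := by
    rw [ex_add, ex_mul_left, ex_const]
    have h7 : ex p A (fun S => (f S - m) ^ 2) = ex p A (fun S => f S ^ 2) - m ^ 2 := by
      have : ex p A (fun S => (f S - m) ^ 2)
          = ex p A (fun S => f S ^ 2) + ex p A (fun S => (-2 * m) * f S) + ex p A (fun _ => m ^ 2) := by
        rw [← ex_add, ← ex_add]
        exact ex_congr p fun S _ => by ring
      rw [this, ex_mul_left, ex_const, ← hm]; ring
    rw [h7]
  rw [h6] at h1
  have h8 : (1 / (2 * σ)) * (ex p A (fun S => f S ^ 2) - m ^ 2) ≤ (1 / (2 * σ)) * σ ^ 2 :=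
    mul_le_mul_of_nonneg_left h (by positivity)
  have h9 : (1 / (2 * σ)) * σ ^ 2 = σ / 2 := by field_simp
  linarith

/-- Lipschitz extension from a down-closed family. -/
lemma lip_ext (A : Finset ι) (P : Finset ι → Prop) (hP0 : P ∅)
    (hPd : ∀ S T : Finset ι, T ⊆ S → P S → P T) (f : Finset ι → ℝ) (c : ℝ) (hc : 0 ≤ c)
    (hf : ∀ i ∈ A, ∀ S ⊆ A, P (insert i S) → |f (insert i S) - f S| ≤ c) :
    ∃ g : Finset ι → ℝ, (∀ S ⊆ A, P S → g S = f S) ∧
      (∀ i : ι, ∀ S : Finset ι, |g (insert i S) - g S| ≤ c) ∧
      (∀ S : Finset ι, g S ≤ f ∅ + c * (S.card : ℝ)) := by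
  classical
  -- distance along the family
  have key : ∀ S T : Finset ι, S ⊆ A → T ⊆ A → P S → P T →
      f S ≤ f T + c * ((symmDiff S T).card : ℝ) := by
    have down : ∀ (n : ℕ) (S T : Finset ι), T ⊆ S → (S \ T).card = n → S ⊆ A → P S →
        |f S - f T| ≤ c * (n : ℝ) := by
      intro n
      induction n with
      | zero =>
        intro S T hTS h0 hSA hS
        rw [Finset.card_eq_zero, Finset.sdiff_eq_empty_iff_subset] at h0
        have : S = T := Finset.Subset.antisymm h0 hTS
        subst this; simp
      | succ n ih =>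
        intro S T hTS h0 hSA hS
        have hne : (S \ T).Nonempty := by
          rw [← Finset.card_pos]; omega
        obtain ⟨i, hi⟩ := hne
        rw [Finset.mem_sdiff] at hi
        have hsub : T ⊆ S.erase i := by
          intro x hx
          rw [Finset.mem_erase]
          exact ⟨fun h => hi.2 (h ▸ hx), hTS hx⟩
        have hcard : (S.erase i \ T).card = n := by
          have : S.erase i \ T = (S \ T).erase i := by
            ext x; simp only [Finset.mem_sdiff, Finset.mem_erase]; tauto
          rw [this, Finset.card_erase_of_mem (Finset.mem_sdiff.mpr hi), h0]; simp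
        have hSi : P (S.erase i) := hPd S _ (Finset.erase_subset i S) hS
        have h1 := ih (S.erase i) T hsub hcard ((Finset.erase_subset i S).trans hSA) hSi
        have h2 := hf i (hSA hi.1) (S.erase i) ((Finset.erase_subset i S).trans hSA)
          (by rw [Finset.insert_erase hi.1]; exact hS)
        rw [Finset.insert_erase hi.1] at h2
        have h3 : |f S - f T| ≤ |f S - f (S.erase i)| + |f (S.erase i) - f T| :=
          abs_sub_le _ _ _
        push_cast
        linarith
    intro S T hSA hTA hS hT
    have h1 := down _ S (S ∩ T) Finset.inter_subset_left rfl hSA hS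
    have h2 := down _ T (S ∩ T) Finset.inter_subset_right rfl hTA hT
    have h3 : (symmDiff S T).card = (S \ (S ∩ T)).card + (T \ (S ∩ T)).card := by
      rw [Finset.sdiff_inter_self_left, Finset.inter_comm S T, Finset.sdiff_inter_self_left]
      have : symmDiff S T = (S \ T) ∪ (T \ S) := rfl
      rw [this, Finset.card_union_of_disjoint]
      exact disjoint_sdiff_sdiff
    rw [h3]
    push_cast
    have h4 := (abs_le.mp h1).2
    have h5 := (abs_le.mp h2).1
    nlinarith [h4, h5]
  let F : Finset (Finset ι) := A.powerset.filter P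
  have hF0 : (∅ : Finset ι) ∈ F := by
    simp only [F, Finset.mem_filter, Finset.mem_powerset]
    exact ⟨Finset.empty_subset _, hP0⟩
  have hFne : F.Nonempty := ⟨∅, hF0⟩
  let g : Finset ι → ℝ := fun S => F.inf' hFne (fun T => f T + c * ((symmDiff S T).card : ℝ))
  have gle : ∀ S T, T ∈ F → g S ≤ f T + c * ((symmDiff S T).card : ℝ) := fun S T hT =>
    Finset.inf'_le (s := F) (f := fun T => f T + c * ((symmDiff S T).card : ℝ)) hT
  have symm1 : ∀ (i : ι) (S T : Finset ι),
      ((symmDiff (insert i S) T).card : ℝ) ≤ ((symmDiff S T).card : ℝ) + 1 := by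
    intro i S T
    have : symmDiff (insert i S) T ⊆ insert i (symmDiff S T) := by
      intro x hx
      simp only [Finset.mem_symmDiff, Finset.mem_insert] at hx ⊢
      tauto
    have h := (Finset.card_le_card this).trans (Finset.card_insert_le _ _)
    exact_mod_cast h
  have symm2 : ∀ (i : ι) (S T : Finset ι),
      ((symmDiff S T).card : ℝ) ≤ ((symmDiff (insert i S) T).card : ℝ) + 1 := by
    intro i S T
    have : symmDiff S T ⊆ insert i (symmDiff (insert i S) T) := by
      intro x hx
      simp only [Finset.mem_symmDiff, Finset.mem_insert] at hx ⊢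
      tauto
    have h := (Finset.card_le_card this).trans (Finset.card_insert_le _ _)
    exact_mod_cast h
  refine ⟨g, ?_, ?_, ?_⟩
  · intro S hSA hS
    apply le_antisymm
    · have hSF : S ∈ F := by
        simp only [F, Finset.mem_filter, Finset.mem_powerset]; exact ⟨hSA, hS⟩
      have := gle S S hSF
      simpa using this
    · apply Finset.le_inf'
      intro T hT
      simp only [F, Finset.mem_filter, Finset.mem_powerset] at hT
      exact key S T hSA hT.1 hS hT.2
  · intro i S
    rw [abs_le]
    obtain ⟨T, hT, hgT⟩ := Finset.exists_mem_eq_inf' hFne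
      (fun T => f T + c * ((symmDiff S T).card : ℝ))
    obtain ⟨T', hT', hgT'⟩ := Finset.exists_mem_eq_inf' hFne
      (fun T => f T + c * ((symmDiff (insert i S) T).card : ℝ))
    have e1 : g S = f T + c * ((symmDiff S T).card : ℝ) := hgT
    have e2 : g (insert i S) = f T' + c * ((symmDiff (insert i S) T').card : ℝ) := hgT'
    have b1 := gle (insert i S) T hT
    have b2 := gle S T' hT'
    have s1 := mul_le_mul_of_nonneg_left (symm1 i S T) hc
    have s2 := mul_le_mul_of_nonneg_left (symm2 i S T') hc
    constructor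
    · rw [e2]; linarith
    · rw [e1]; linarith
  · intro S
    have := gle S ∅ hF0
    have h2 : symmDiff S (∅ : Finset ι) = S := by
      ext x; simp [Finset.mem_symmDiff]
    rwa [h2] at this

end Pool.Agent.MD437
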