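import Pool.Agent.MD437.Graph

/-! Probabilistic estimates for one vertex or one pair of vertices. -/

namespace Pool.Agent.MD437

open Finset

variable {n : ℕ}

lemma card_inc (v : Fin n) : ((E n).filter (fun e => v ∈ e)).card ≤ n - 1 := by
  have : (E n).filter (fun e => v ∈ e) ⊆ (Finset.univ.erase v).image (fun w => s(v, w)) := by
    intro e he
    rw [Finset.mem_filter] at he
    obtain ⟨h1, h2⟩ := he
    obtain ⟨w, rfl⟩ := h2
    rw [mk_mem_E] at h1
    rw [Finset.mem_image]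
    exact ⟨w, Finset.mem_erase.mpr ⟨h1.symm, Finset.mem_univ _⟩, rfl⟩
  refine (Finset.card_le_card this).trans (Finset.card_image_le.trans ?_)
  rw [Finset.card_erase_of_mem (Finset.mem_univ _)]
  simp

lemma card_E (n : ℕ) : (E n).card = n.choose 2 := by
  have h := Sym2.card_subtype_not_diag (α := Fin n)
  rw [Fintype.card_fin] at h
  rw [← h, Fintype.card_subtype]
  rfl

lemma sum_inc (v : Fin n) :
    ∑ e ∈ E n, (if v ∈ e then (1 : ℝ) else 0) ^ 2 ≤ ((n - 1 : ℕ) : ℝ) := by
  have h1 : ∑ e ∈ E n, (if v ∈ e then (1 : ℝ) else 0) ^ 2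
      = (((E n).filter (fun e => v ∈ e)).card : ℝ) := by
    rw [Finset.card_filter]
    push_cast
    refine Finset.sum_congr rfl fun e _ => ?_
    split_ifs <;> norm_num
  rw [h1]
  exact_mod_cast card_inc v

/-- mean degree -/
lemma mean_dg (p : ℝ) (v : Fin n) :
    ex p (E n) (fun S => (dg S v : ℝ)) = p * ((n - 1 : ℕ) : ℝ) := by
  have h1 : (fun S : Finset (Sym2 (Fin n)) => (dg S v : ℝ))
      = fun S => ∑ w : Fin n, (if ad S v w then (1 : ℝ) else 0) := by
    funext S
    unfold dg nb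
    rw [Finset.card_filter]; push_cast; rfl
  rw [h1, ex_sum]
  have h2 : ∀ w : Fin n, ex p (E n) (fun S => if ad S v w then (1 : ℝ) else 0)
      = if w = v then 0 else p := by
    intro w
    by_cases hw : w = v
    · rw [if_pos hw]
      subst hw
      refine (ex_congr p fun S _ => ?_).trans (ex_const p _ 0)
      rw [if_neg]; exact fun h => h.1 rfl
    · rw [if_neg hw]
      refine (ex_congr p fun S _ => ?_).trans (ex_mem p (mk_mem_E.mpr (Ne.symm hw)))
      have : ad S v w ↔ s(v, w) ∈ S := ⟨fun h => h.2, fun h => ⟨Ne.symm hw, h⟩⟩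
      simp only [this]
  rw [Finset.sum_congr rfl fun w _ => h2 w]
  rw [Finset.sum_ite, Finset.sum_const_zero, zero_add, Finset.sum_const, nsmul_eq_mul]
  have h3 : (Finset.univ.filter (fun w : Fin n => ¬ w = v)).card = n - 1 := by
    rw [Finset.filter_not, Finset.card_sdiff_of_subset (Finset.filter_subset _ _)]
    simp [Finset.filter_eq']
  rw [h3]; ring

lemma erase_insert_eq (S : Finset (Sym2 (Fin n))) (e : Sym2 (Fin n)) :
    insert e S = insert e (S.erase e) := by
  ext x; simp only [Finset.mem_insert, Finset.mem_erase]; tauto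

lemma var_aW {p : ℝ} (hp0 : 0 ≤ p) (hp1 : p ≤ 1) (W : Finset (Fin n)) (v : Fin n) :
    ex p (E n) (fun S => aW W v S ^ 2) - (ex p (E n) (aW W v)) ^ 2
      ≤ p * ((n - 1 : ℕ) : ℝ) := by
  refine (efron_stein hp0 hp1 (E n) (aW W v)).trans ?_
  refine mul_le_mul_of_nonneg_left ?_ hp0
  refine (Finset.sum_le_sum (g := fun e => (if v ∈ e then (1 : ℝ) else 0) ^ 2)
    fun e _ => ?_).trans (sum_inc v)
  refine (ex_mono hp0 hp1 (g := fun _ => (if v ∈ e then (1 : ℝ) else 0) ^ 2)
    fun S _ => ?_).trans (ex_const p _ _).le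
  have h := aW_insert W v (S.erase e) e
  rw [← erase_insert_eq] at h
  rw [← sq_abs (aW W v (insert e S) - aW W v (S.erase e))]
  exact pow_le_pow_left₀ (abs_nonneg _) h 2

lemma sq_dg {p : ℝ} (hp0 : 0 ≤ p) (hp1 : p ≤ 1) (v : Fin n) :
    ex p (E n) (fun S => (dg S v : ℝ) ^ 2)
      ≤ p * ((n - 1 : ℕ) : ℝ) + (p * ((n - 1 : ℕ) : ℝ)) ^ 2 := by
  have h := var_aW hp0 hp1 Finset.univ v
  have e1 : ex p (E n) (aW Finset.univ v) = p * ((n - 1 : ℕ) : ℝ) := mean_dg p v
  rw [e1] at h
  have e2 : ex p (E n) (fun S => aW Finset.univ v S ^ 2)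
      = ex p (E n) (fun S => (dg S v : ℝ) ^ 2) := rfl
  rw [e2] at h
  linarith

lemma var_cW {p d : ℝ} (hp0 : 0 ≤ p) (hp1 : p ≤ 1) (hn : 2 ≤ n)
    (hd : d = p * ((n - 1 : ℕ) : ℝ)) (hd1 : 1 ≤ d) (W : Finset (Fin n)) (v : Fin n) :
    ex p (E n) (fun S => cW W v S ^ 2) - (ex p (E n) (cW W v)) ^ 2 ≤ 16 * d ^ 3 := by
  refine (efron_stein hp0 hp1 (E n) (cW W v)).trans ?_
  have key : ∀ e ∈ E n, ex p (E n) (fun S => (cW W v (insert e S) - cW W v (S.erase e)) ^ 2)
      ≤ (if v ∈ e then (1 : ℝ) else 0) ^ 2 * (8 + 2 * d + 2 * d ^ 2) + 4 * p := by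
    intro e he
    by_cases hv : v ∈ e
    · obtain ⟨y, rfl⟩ := hv
      have hvy : v ≠ y := mk_mem_E.mp he
      rw [if_pos (Sym2.mem_mk_left v y)]
      have h1 : ex p (E n) (fun S => (cW W v (insert s(v, y) S) - cW W v (S.erase s(v, y))) ^ 2)
          ≤ ex p (E n) (fun S => 2 * (dg S y : ℝ) ^ 2 + 8) := by
        refine ex_mono hp0 hp1 fun S _ => ?_
        have h := cW_insert W v (S.erase s(v, y)) hvy
        rw [← erase_insert_eq] at h
        have h2 := chg_card (S.erase s(v, y)) v y v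
        have h3 : dg (S.erase s(v, y)) y ≤ dg S y := dg_mono (Finset.erase_subset _ _) y
        have h4 : (chg (S.erase s(v, y)) v y v).card ≤ 2 + dg S y := by
          refine h2.trans ?_
          rw [if_pos rfl, if_neg hvy]
          have h5 : (if ad (S.erase s(v, y)) v v then 1 else 0) = 0 := by
            rw [if_neg]; exact fun h => h.1 rfl
          rw [h5]
          split_ifs <;> omega
        have h5 : |cW W v (insert s(v, y) S) - cW W v (S.erase s(v, y))| ≤ 2 + (dg S y : ℝ) := by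
          refine h.trans ?_
          exact_mod_cast h4
        rw [← sq_abs (cW W v (insert s(v, y) S) - cW W v (S.erase s(v, y)))]
        refine (pow_le_pow_left₀ (abs_nonneg _) h5 2).trans ?_
        nlinarith [sq_nonneg ((dg S y : ℝ) - 2)]
      refine h1.trans ?_
      rw [ex_add, ex_mul_left, ex_const]
      have h6 := sq_dg hp0 hp1 y
      rw [← hd] at h6
      nlinarith [h6]
    · induction e using Sym2.ind with
      | _ x y =>
        have hxy : x ≠ y := mk_mem_E.mp he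
        rw [if_neg hv]
        rw [Sym2.mem_iff] at hv
        push Not at hv
        have h1 : ex p (E n) (fun S => (cW W v (insert s(x, y) S) - cW W v (S.erase s(x, y))) ^ 2)
            ≤ ex p (E n) (fun S => 2 * (if s(y, v) ∈ S then (1 : ℝ) else 0)
              + 2 * (if s(x, v) ∈ S then (1 : ℝ) else 0)) := by
          refine ex_mono hp0 hp1 fun S _ => ?_
          have h := cW_insert W v (S.erase s(x, y)) hxy
          rw [← erase_insert_eq] at h
          have h2 := chg_card (S.erase s(x, y)) x y v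
          rw [if_neg hv.1, if_neg hv.2] at h2
          have h5 : |cW W v (insert s(x, y) S) - cW W v (S.erase s(x, y))|
              ≤ (if s(y, v) ∈ S then (1 : ℝ) else 0) + (if s(x, v) ∈ S then (1 : ℝ) else 0) := by
            refine h.trans ?_
            have h6 : (chg (S.erase s(x, y)) x y v).card
                ≤ (if s(y, v) ∈ S then 1 else 0) + (if s(x, v) ∈ S then 1 else 0) := by
              refine h2.trans ?_
              have a1 : (if ad (S.erase s(x, y)) y v then 1 else 0)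
                  ≤ (if s(y, v) ∈ S then 1 else 0) := by
                by_cases h7 : ad (S.erase s(x, y)) y v
                · rw [if_pos h7, if_pos (Finset.mem_of_mem_erase h7.2)]
                · rw [if_neg h7]; omega
              have a2 : (if ad (S.erase s(x, y)) x v then 1 else 0)
                  ≤ (if s(x, v) ∈ S then 1 else 0) := by
                by_cases h7 : ad (S.erase s(x, y)) x v
                · rw [if_pos h7, if_pos (Finset.mem_of_mem_erase h7.2)]
                · rw [if_neg h7]; omega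
              omega
            calc ((chg (S.erase s(x, y)) x y v).card : ℝ)
                ≤ (((if s(y, v) ∈ S then 1 else 0) + (if s(x, v) ∈ S then 1 else 0) : ℕ) : ℝ) := by
                  exact_mod_cast h6
              _ = _ := by push_cast; rfl
          rw [← sq_abs (cW W v (insert s(x, y) S) - cW W v (S.erase s(x, y)))]
          refine (pow_le_pow_left₀ (abs_nonneg _) h5 2).trans ?_
          split_ifs <;> norm_num
        refine h1.trans ?_
        rw [ex_add, ex_mul_left, ex_mul_left, ex_mem p (mk_mem_E.mpr (Ne.symm hv.2)),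
          ex_mem p (mk_mem_E.mpr (Ne.symm hv.1))]
        have : (0:ℝ) ^ 2 * (8 + 2 * d + 2 * d ^ 2) = 0 := by ring
        rw [this]; linarith
  have h1 := Finset.sum_le_sum key
  rw [Finset.sum_add_distrib, ← Finset.sum_mul, Finset.sum_const, nsmul_eq_mul, card_E] at h1
  have h2 := sum_inc v
  have h3 : ((n.choose 2 : ℕ) : ℝ) = (n : ℝ) * ((n - 1 : ℕ) : ℝ) / 2 := by
    rw [Nat.cast_choose_two]
    push_cast [Nat.cast_sub (by omega : 1 ≤ n)]
    ring
  have h4 : p * (n : ℝ) ≤ 2 * d := by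
    rw [hd]
    have h5 : (n : ℝ) ≤ 2 * ((n - 1 : ℕ) : ℝ) := by
      have : n ≤ 2 * (n - 1) := by omega
      exact_mod_cast this
    nlinarith [mul_le_mul_of_nonneg_left h5 hp0]
  have hN : (0:ℝ) ≤ ((n - 1 : ℕ) : ℝ) := Nat.cast_nonneg _
  have h6 : p * ∑ e ∈ E n, ex p (E n)
        (fun S => (cW W v (insert e S) - cW W v (S.erase e)) ^ 2)
      ≤ p * (((n - 1 : ℕ) : ℝ) * (8 + 2 * d + 2 * d ^ 2)
        + (n : ℝ) * ((n - 1 : ℕ) : ℝ) / 2 * (4 * p)) := by
    refine mul_le_mul_of_nonneg_left ?_ hp0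
    rw [h3] at h1
    refine h1.trans ?_
    have : (∑ e ∈ E n, (if v ∈ e then (1 : ℝ) else 0) ^ 2) * (8 + 2 * d + 2 * d ^ 2)
        ≤ ((n - 1 : ℕ) : ℝ) * (8 + 2 * d + 2 * d ^ 2) :=
      mul_le_mul_of_nonneg_right h2 (by positivity)
    linarith
  refine h6.trans ?_
  have h7 : p * (((n - 1 : ℕ) : ℝ) * (8 + 2 * d + 2 * d ^ 2)
        + (n : ℝ) * ((n - 1 : ℕ) : ℝ) / 2 * (4 * p))
      = d * (8 + 2 * d + 2 * d ^ 2) + 2 * d * (p * (n : ℝ)) := by
    rw [hd]; ring
  rw [h7]
  have h8 : 2 * d * (p * (n : ℝ)) ≤ 2 * d * (2 * d) :=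
    mul_le_mul_of_nonneg_left h4 (by linarith)
  nlinarith [h8, pow_le_pow_left₀ (by norm_num : (0:ℝ) ≤ 1) hd1 2, sq_nonneg (d - 1),
    mul_nonneg (by linarith : (0:ℝ) ≤ d) (sq_nonneg (d - 1)),
    mul_le_mul_of_nonneg_left hd1 (by linarith : (0:ℝ) ≤ d),
    mul_le_mul_of_nonneg_left hd1 (by positivity : (0:ℝ) ≤ d ^ 2)]

/-- upper tail of the degree -/
lemma dg_upper {p d : ℝ} (hp0 : 0 ≤ p) (hp1 : p ≤ 1) (hd : d = p * ((n - 1 : ℕ) : ℝ))
    (v : Fin n) : pr p (E n) (fun S => 4 * d ≤ (dg S v : ℝ)) ≤ Real.exp (-(2 * d)) := by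
  refine (pr_exp hp0 hp1 (E n) (fun S => (dg S v : ℝ)) (4 * d)).trans ?_
  have h := mgf hp0 hp1 (E n) (fun e => if v ∈ e then (1 : ℝ) else 0) 1
    (fun e _ => by simp only [abs_one, one_mul]; split_ifs <;> norm_num)
    (fun S => (dg S v : ℝ)) (fun e _ S => by
      have := aW_insert Finset.univ v S e
      rw [aW_univ, aW_univ] at this
      exact this)
  rw [mean_dg, ← hd] at h
  simp only [one_mul, one_pow] at h
  have h2 := mul_le_mul_of_nonneg_left (sum_inc v) hp0
  rw [← hd] at h2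
  calc Real.exp (-(4 * d)) * ex p (E n) (fun S => Real.exp ((dg S v : ℝ)))
      ≤ Real.exp (-(4 * d)) * Real.exp (d + p * ∑ e ∈ E n, (if v ∈ e then (1 : ℝ) else 0) ^ 2) :=
        mul_le_mul_of_nonneg_left h (Real.exp_pos _).le
    _ = Real.exp (-(4 * d) + (d + p * ∑ e ∈ E n, (if v ∈ e then (1 : ℝ) else 0) ^ 2)) := by
        rw [← Real.exp_add]
    _ ≤ _ := Real.exp_le_exp.mpr (by linarith)

/-- lower tail of the degree -/
lemma dg_lower {p d : ℝ} (hp0 : 0 ≤ p) (hp1 : p ≤ 1) (hd : d = p * ((n - 1 : ℕ) : ℝ))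
    (v : Fin n) : pr p (E n) (fun S => (dg S v : ℝ) ≤ d / 4) ≤ Real.exp (-(d / 8)) := by
  have h0 : pr p (E n) (fun S => (dg S v : ℝ) ≤ d / 4)
      ≤ pr p (E n) (fun S => -(d / 8) ≤ (-1/2 : ℝ) * (dg S v : ℝ)) :=
    pr_mono hp0 hp1 fun S _ h => by linarith
  refine h0.trans ?_
  refine (pr_exp hp0 hp1 (E n) (fun S => (-1/2 : ℝ) * (dg S v : ℝ)) (-(d / 8))).trans ?_
  have h := mgf hp0 hp1 (E n) (fun e => if v ∈ e then (1 : ℝ) else 0) (-1/2)
    (fun e _ => by
      rw [show |(-1/2 : ℝ)| = 1/2 by rw [abs_of_neg (by norm_num)]; norm_num]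
      split_ifs <;> norm_num)
    (fun S => (dg S v : ℝ)) (fun e _ S => by
      have := aW_insert Finset.univ v S e
      rw [aW_univ, aW_univ] at this
      exact this)
  rw [mean_dg, ← hd] at h
  have h2 := mul_le_mul_of_nonneg_left (sum_inc v) hp0
  rw [← hd] at h2
  calc Real.exp (-(-(d / 8))) * ex p (E n) (fun S => Real.exp ((-1/2 : ℝ) * (dg S v : ℝ)))
      ≤ Real.exp (-(-(d / 8))) * Real.exp ((-1/2 : ℝ) * d
          + (-1/2 : ℝ) ^ 2 * p * ∑ e ∈ E n, (if v ∈ e then (1 : ℝ) else 0) ^ 2) :=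
        mul_le_mul_of_nonneg_left h (Real.exp_pos _).le
    _ = Real.exp (-(-(d / 8)) + ((-1/2 : ℝ) * d
          + (-1/2 : ℝ) ^ 2 * p * ∑ e ∈ E n, (if v ∈ e then (1 : ℝ) else 0) ^ 2)) := by
        rw [← Real.exp_add]
    _ ≤ _ := Real.exp_le_exp.mpr (by nlinarith)

end Pool.Agent.MD437
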