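import Pool.Agent.MD437.Est

/-! Two vertices are almost surely joined by a walk of length three. -/

namespace Pool.Agent.MD437

open Finset

variable {n : ℕ}

/-- there is a walk of length three -/
def w3 (S : Finset (Sym2 (Fin n))) (u v : Fin n) : Prop :=
  ∃ s t, ad S u s ∧ ad S s t ∧ ad S t v

/-- edges between the neighbourhoods -/
def Fst (S : Finset (Sym2 (Fin n))) (u v : Fin n) : Finset (Sym2 (Fin n)) :=
  ((((nb S u).erase v) ×ˢ ((nb S v).erase u)).filter (fun q => q.1 ≠ q.2)).image
    (fun q => s(q.1, q.2))

lemma Fst_card (S : Finset (Sym2 (Fin n))) (u v : Fin n) :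
    ((nb S u).erase v).card * ((nb S v).erase u).card
      ≤ ((nb S u).erase v).card + 2 * (Fst S u v).card := by
  set A := (nb S u).erase v
  set B := (nb S v).erase u
  have h1 : ((A ×ˢ B).filter (fun q => q.1 ≠ q.2)).card ≤ 2 * (Fst S u v).card := by
    refine Finset.card_le_mul_card_image _ 2 ?_
    intro e _
    induction e using Sym2.ind with
    | _ x y =>
      have : ((A ×ˢ B).filter (fun q => q.1 ≠ q.2)).filter (fun q => s(q.1, q.2) = s(x, y))
          ⊆ {(x, y), (y, x)} := by
        intro q hq
        rw [Finset.mem_filter] at hq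
        have h := hq.2
        rw [Sym2.eq_iff] at h
        rw [Finset.mem_insert, Finset.mem_singleton]
        rcases h with ⟨h1, h2⟩ | ⟨h1, h2⟩
        · left; exact Prod.ext h1 h2
        · right; exact Prod.ext h1 h2
      exact (Finset.card_le_card this).trans (Finset.card_insert_le _ _)
  have h2 : ((A ×ˢ B).filter (fun q => ¬ q.1 ≠ q.2)).card ≤ A.card := by
    refine Finset.card_le_card_of_injOn (fun q => q.1) ?_ ?_
    · intro q hq
      rw [Finset.mem_coe, Finset.mem_filter, Finset.mem_product] at hq
      exact hq.1.1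
    · intro q hq q' hq' h
      rw [Finset.mem_coe, Finset.mem_filter] at hq hq'
      have a1 := not_not.mp hq.2
      have a2 := not_not.mp hq'.2
      have h' : q.1 = q'.1 := h
      exact Prod.ext h' (by rw [← a1, ← a2]; exact h')
  have h3 := Finset.card_filter_add_card_filter_not (s := A ×ˢ B) (fun q => q.1 ≠ q.2)
  rw [Finset.card_product] at h3
  omega

lemma w3_prob {p d : ℝ} (hp0 : 0 ≤ p) (hp1 : p ≤ 1) (hn : 2 ≤ n)
    (hd : d = p * ((n - 1 : ℕ) : ℝ)) (hd16 : 16 ≤ d) {u v : Fin n} (huv : u ≠ v) :
    pr p (E n) (fun S => ¬ w3 S u v)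
      ≤ 2 * Real.exp (-(d / 8)) + Real.exp (-(d ^ 3 / (128 * (n : ℝ)))) := by
  classical
  set κ := Real.exp (-(d ^ 3 / (128 * (n : ℝ)))) with hκ
  set I := (E n).filter (fun e => u ∈ e ∨ v ∈ e) with hI
  set R := (E n).filter (fun e => ¬ (u ∈ e ∨ v ∈ e)) with hR
  have hIR : E n = I ∪ R := (Finset.filter_union_filter_not_eq _ _).symm
  have hdis : Disjoint I R := Finset.disjoint_filter_filter_not _ _ _
  let g : Finset (Sym2 (Fin n)) → ℝ := fun S =>
    (if (dg S u : ℝ) ≤ d / 4 then (1:ℝ) else 0) + (if (dg S v : ℝ) ≤ d / 4 then (1:ℝ) else 0) + κ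
  have hmain : ex p (E n) (fun S => if ¬ w3 S u v then (1:ℝ) else 0) ≤ ex p (E n) g := by
    rw [hIR, ex_union p hdis, ex_union p hdis]
    refine ex_mono hp0 hp1 fun S hS => ?_
    have hSI : ∀ e ∈ S, u ∈ e ∨ v ∈ e := fun e he => (Finset.mem_filter.mp (hS he)).2
    have nbu : ∀ T ⊆ R, nb (S ∪ T) u = nb S u := by
      intro T hT
      ext w
      rw [mem_nb, mem_nb]
      constructor
      · rintro ⟨h1, h2⟩
        refine ⟨h1, ?_⟩
        rw [Finset.mem_union] at h2
        rcases h2 with h2 | h2
        · exact h2
        · exfalso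
          exact (Finset.mem_filter.mp (hT h2)).2 (Or.inl (Sym2.mem_mk_left u w))
      · exact fun h => ad_mono Finset.subset_union_left h
    have nbv : ∀ T ⊆ R, nb (S ∪ T) v = nb S v := by
      intro T hT
      ext w
      rw [mem_nb, mem_nb]
      constructor
      · rintro ⟨h1, h2⟩
        refine ⟨h1, ?_⟩
        rw [Finset.mem_union] at h2
        rcases h2 with h2 | h2
        · exact h2
        · exfalso
          exact (Finset.mem_filter.mp (hT h2)).2 (Or.inr (Sym2.mem_mk_left v w))
      · exact fun h => ad_mono Finset.subset_union_left h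
    have hg : ex p R (fun T => g (S ∪ T)) = g S := by
      refine (ex_congr p fun T hT => ?_).trans (ex_const p R (g S))
      simp only [g]
      have e1 : dg (S ∪ T) u = dg S u := by unfold dg; rw [nbu T hT]
      have e2 : dg (S ∪ T) v = dg S v := by unfold dg; rw [nbv T hT]
      rw [e1, e2]
    rw [hg]
    have hFR : Fst S u v ⊆ R := by
      intro e he
      unfold Fst at he
      rw [Finset.mem_image] at he
      obtain ⟨q, hq, rfl⟩ := he
      rw [Finset.mem_filter, Finset.mem_product, Finset.mem_erase, Finset.mem_erase,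
        mem_nb, mem_nb] at hq
      obtain ⟨⟨⟨h1, h2⟩, ⟨h3, h4⟩⟩, h5⟩ := hq
      rw [hR, Finset.mem_filter, mk_mem_E, Sym2.mem_iff, Sym2.mem_iff]
      refine ⟨h5, ?_⟩
      rintro ((h | h) | (h | h))
      · exact h2.1 h
      · exact h3 h.symm
      · exact h1 h.symm
      · exact h4.1 h
    have h1 : ex p R (fun T => if ¬ w3 (S ∪ T) u v then (1:ℝ) else 0)
        ≤ ex p R (fun T => if Disjoint T (Fst S u v) then (1:ℝ) else 0) := by
      refine ex_mono hp0 hp1 fun T hT => ?_
      by_cases hdj : Disjoint T (Fst S u v)
      · rw [if_pos hdj]; split_ifs <;> norm_num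
      · rw [if_neg hdj, if_neg]
        rw [not_not]
        rw [Finset.not_disjoint_iff] at hdj
        obtain ⟨e, heT, heF⟩ := hdj
        unfold Fst at heF
        rw [Finset.mem_image] at heF
        obtain ⟨q, hq, rfl⟩ := heF
        rw [Finset.mem_filter, Finset.mem_product, Finset.mem_erase, Finset.mem_erase,
          mem_nb, mem_nb] at hq
        obtain ⟨⟨⟨_, h2⟩, ⟨_, h4⟩⟩, h5⟩ := hq
        refine ⟨q.1, q.2, ad_mono Finset.subset_union_left h2, ⟨h5, ?_⟩,
          ad_symm (ad_mono Finset.subset_union_left h4)⟩
        exact Finset.mem_union_right _ heT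
    refine h1.trans ?_
    rw [ex_miss p hFR]
    have hpw : (1 - p) ^ (Fst S u v).card ≤ 1 := pow_le_one₀ (by linarith) (by linarith)
    have hκ0 : 0 < κ := Real.exp_pos _
    simp only [g]
    by_cases hu : (dg S u : ℝ) ≤ d / 4
    · rw [if_pos hu]; split_ifs <;> linarith
    · by_cases hv : (dg S v : ℝ) ≤ d / 4
      · rw [if_neg hu, if_pos hv]; linarith
      · rw [if_neg hu, if_neg hv]
        push Not at hu hv
        have c1 : (dg S u : ℝ) ≤ (((nb S u).erase v).card : ℝ) + 1 := by
          have : dg S u ≤ ((nb S u).erase v).card + 1 := by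
            unfold dg
            have := Finset.pred_card_le_card_erase (s := nb S u) (a := v)
            omega
          exact_mod_cast this
        have c2 : (dg S v : ℝ) ≤ (((nb S v).erase u).card : ℝ) + 1 := by
          have : dg S v ≤ ((nb S v).erase u).card + 1 := by
            unfold dg
            have := Finset.pred_card_le_card_erase (s := nb S v) (a := u)
            omega
          exact_mod_cast this
        have c3 : (((nb S u).erase v).card : ℝ) * (((nb S v).erase u).card : ℝ)
            ≤ (((nb S u).erase v).card : ℝ) + 2 * ((Fst S u v).card : ℝ) := by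
          exact_mod_cast Fst_card S u v
        set a := (((nb S u).erase v).card : ℝ)
        set b := (((nb S v).erase u).card : ℝ)
        set F := ((Fst S u v).card : ℝ)
        have ha : d / 8 ≤ a := by linarith
        have hb : d / 8 ≤ b - 1 := by linarith
        have hF : d ^ 2 / 128 ≤ F := by
          have : (d / 8) * (d / 8) ≤ a * (b - 1) :=
            mul_le_mul ha hb (by linarith) (by linarith)
          nlinarith
        have hpn : d / (n : ℝ) ≤ p := by
          have hn0 : (0:ℝ) < n := by
            have : 0 < n := by omega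
            exact_mod_cast this
          rw [div_le_iff₀ hn0, hd]
          refine mul_le_mul_of_nonneg_left ?_ hp0
          exact_mod_cast (by omega : n - 1 ≤ n)
        have hn0 : (0:ℝ) < n := by
          have : 0 < n := by omega
          exact_mod_cast this
        have hexp : (1 - p) ^ (Fst S u v).card ≤ Real.exp (-(p * F)) := by
          have h5 : 1 - p ≤ Real.exp (-p) := by
            have := Real.add_one_le_exp (-p); linarith
          calc (1 - p) ^ (Fst S u v).card ≤ (Real.exp (-p)) ^ (Fst S u v).card :=
                pow_le_pow_left₀ (by linarith) h5 _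
            _ = Real.exp (-(p * F)) := by
                rw [← Real.exp_nat_mul]; congr 1; simp only [F]; ring
        have hfin : Real.exp (-(p * F)) ≤ κ := by
          rw [hκ]
          apply Real.exp_le_exp.mpr
          have h6 : d / (n : ℝ) * (d ^ 2 / 128) ≤ p * F :=
            mul_le_mul hpn hF (by positivity) hp0
          have h7 : d ^ 3 / (128 * (n : ℝ)) = d / (n : ℝ) * (d ^ 2 / 128) := by
            field_simp
          rw [h7]; linarith
        linarith
  rw [pr_def]
  refine hmain.trans ?_
  simp only [g]
  rw [ex_add, ex_add, ex_const]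
  have t1 := dg_lower hp0 hp1 hd u
  have t2 := dg_lower hp0 hp1 hd v
  rw [pr_def] at t1 t2
  linarith

end Pool.Agent.MD437
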