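import Pool.Agent.MD437.Uni

/-! The pigeonhole argument. -/

namespace Pool.Agent.MD437

open Finset

variable {n : ℕ}

/-- natural numbers in a short interval -/
lemma card_near (N : ℕ) (μ r : ℝ) (hr : 0 ≤ r) :
    (((Finset.range N).filter (fun k : ℕ => |(k : ℝ) - μ| ≤ r)).card : ℝ) ≤ 2 * r + 1 := by
  classical
  have h1 : ((Finset.range N).filter (fun k : ℕ => |(k : ℝ) - μ| ≤ r)).card
      ≤ (Finset.Icc ⌈μ - r⌉ ⌊μ + r⌋).card := by
    refine Finset.card_le_card_of_injOn (fun k : ℕ => (k : ℤ)) ?_ ?_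
    · intro k hk
      rw [Finset.mem_coe, Finset.mem_filter] at hk
      rw [Finset.mem_coe, Finset.mem_Icc, Int.ceil_le, Int.le_floor]
      have := abs_le.mp hk.2
      push_cast
      constructor <;> linarith
    · intro a _ b _ h
      have h' : (a : ℤ) = (b : ℤ) := h
      exact_mod_cast h'
  have h2 : ((Finset.Icc ⌈μ - r⌉ ⌊μ + r⌋).card : ℝ) ≤ 2 * r + 1 := by
    rw [Int.card_Icc]
    by_cases h : 0 ≤ ⌊μ + r⌋ + 1 - ⌈μ - r⌉
    · have h3 : (((⌊μ + r⌋ + 1 - ⌈μ - r⌉).toNat : ℤ) : ℝ)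
          = ((⌊μ + r⌋ + 1 - ⌈μ - r⌉ : ℤ) : ℝ) := by rw [Int.toNat_of_nonneg h]
      have h4 : (((⌊μ + r⌋ + 1 - ⌈μ - r⌉).toNat : ℕ) : ℝ)
          = (((⌊μ + r⌋ + 1 - ⌈μ - r⌉).toNat : ℤ) : ℝ) := by push_cast; rfl
      rw [h4, h3]
      push_cast
      have := Int.floor_le (μ + r)
      have := Int.le_ceil (μ - r)
      linarith
    · rw [Int.toNat_of_nonpos (by omega)]
      push_cast; linarith
  refine le_trans ?_ h2
  exact_mod_cast h1

/-- Markov's inequality for a sum -/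
lemma few_large (f : Fin n → ℝ) (hf : ∀ v, 0 ≤ f v) (t K : ℝ) (ht : 0 < t)
    (h : ∑ v, f v ≤ K * t) :
    (((Finset.univ : Finset (Fin n)).filter (fun v => t < f v)).card : ℝ) ≤ K := by
  have h1 : (((Finset.univ : Finset (Fin n)).filter (fun v => t < f v)).card : ℝ) * t
      ≤ ∑ v, f v := by
    have h2 : (((Finset.univ : Finset (Fin n)).filter (fun v => t < f v)).card : ℝ) * t
        = ∑ v ∈ (Finset.univ : Finset (Fin n)).filter (fun v => t < f v), t := by
      rw [Finset.sum_const, nsmul_eq_mul]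
    rw [h2]
    refine (Finset.sum_le_sum (g := f) fun v hv => ?_).trans ?_
    · exact (Finset.mem_filter.mp hv).2.le
    · exact Finset.sum_le_sum_of_subset_of_nonneg (Finset.filter_subset _ _)
        fun v _ _ => hf v
  by_contra hc
  push Not at hc
  have := mul_lt_mul_of_pos_right hc ht
  linarith

/-- two vertices with the same data -/
lemma pigeon {p d : ℝ} (hd4 : 4 ≤ d) (hn : 67200 * d ^ 2 < (n : ℝ))
    (W : Finset (Fin n)) (S : Finset (Sym2 (Fin n)))
    (ha : Za p W S < 5 * (n : ℝ) * Real.sqrt d)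
    (hb : Zb p W S < 51 * (n : ℝ) * (d * Real.sqrt d)) :
    ∃ u v : Fin n, u ≠ v ∧ (u ∈ W ↔ v ∈ W) ∧ aW W u S = aW W v S ∧ cW W u S = cW W v S := by
  classical
  have hs : 2 ≤ Real.sqrt d := by
    rw [show (2 : ℝ) = Real.sqrt 4 by
      rw [show (4 : ℝ) = 2 ^ 2 by norm_num, Real.sqrt_sq (by norm_num)]]
    exact Real.sqrt_le_sqrt hd4
  set s := Real.sqrt d with hsd
  have hs0 : 0 < s := by linarith
  have hss : s ^ 2 = d := Real.sq_sqrt (by linarith)
  have hd0 : 0 < d := by linarith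
  set fa : Fin n → ℝ := fun v => |aW W v S - ex p (E n) (aW W v)| with hfa
  set fb : Fin n → ℝ := fun v => |cW W v S - ex p (E n) (cW W v)| with hfb
  set Ba := (Finset.univ : Finset (Fin n)).filter (fun v => 20 * s < fa v) with hBa
  set Bb := (Finset.univ : Finset (Fin n)).filter (fun v => 204 * (d * s) < fb v) with hBb
  have hBa' : (Ba.card : ℝ) ≤ n / 4 :=
    few_large fa (fun v => abs_nonneg _) (20 * s) (n / 4) (by positivity) (by
      have : Za p W S = ∑ v, fa v := rfl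
      rw [← this]; linarith)
  have hBb' : (Bb.card : ℝ) ≤ n / 4 :=
    few_large fb (fun v => abs_nonneg _) (204 * (d * s)) (n / 4) (by positivity) (by
      have : Zb p W S = ∑ v, fb v := rfl
      rw [← this]; linarith)
  set G := (Finset.univ : Finset (Fin n)) \ (Ba ∪ Bb) with hG
  have hGc : (n : ℝ) / 2 ≤ (G.card : ℝ) := by
    have h1 : (Finset.univ : Finset (Fin n)).card ≤ G.card + (Ba ∪ Bb).card := by
      rw [hG]
      have := Finset.card_sdiff_add_card (Finset.univ : Finset (Fin n)) (Ba ∪ Bb)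
      have h2 : (Finset.univ : Finset (Fin n)).card
        ≤ ((Finset.univ : Finset (Fin n)) ∪ (Ba ∪ Bb)).card :=
        Finset.card_le_card Finset.subset_union_left
      omega
    have h2 := Finset.card_union_le Ba Bb
    rw [Finset.card_univ, Fintype.card_fin] at h1
    have h3 : (n : ℝ) ≤ (G.card : ℝ) + ((Ba.card : ℝ) + (Bb.card : ℝ)) := by
      have : n ≤ G.card + (Ba.card + Bb.card) := by omega
      exact_mod_cast this
    linarith
  have hGa : ∀ v ∈ G, fa v ≤ 20 * s ∧ fb v ≤ 204 * (d * s) := by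
    intro v hv
    rw [hG, Finset.mem_sdiff, Finset.mem_union] at hv
    obtain ⟨_, hv⟩ := hv
    push Not at hv
    constructor
    · by_contra hc
      exact hv.1 (Finset.mem_filter.mpr ⟨Finset.mem_univ _, not_le.mp hc⟩)
    · by_contra hc
      exact hv.2 (Finset.mem_filter.mpr ⟨Finset.mem_univ _, not_le.mp hc⟩)
  -- the two classes
  have hcls : ∀ C : Finset (Fin n), C ⊆ G → (∀ u ∈ C, ∀ v ∈ C, (u ∈ W ↔ v ∈ W)) →
      (n : ℝ) / 4 ≤ (C.card : ℝ) →
      ∃ u v : Fin n, u ≠ v ∧ (u ∈ W ↔ v ∈ W) ∧ aW W u S = aW W v S ∧ cW W u S = cW W v S := by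
    intro C hCG hCW hCc
    have hn0 : 0 < (n : ℝ) := lt_of_le_of_lt (by positivity) hn
    have hCne : C.Nonempty := by
      rw [← Finset.card_pos]
      have : (0 : ℝ) < (C.card : ℝ) := by linarith
      exact_mod_cast this
    obtain ⟨c0, hc0⟩ := hCne
    set μ := ex p (E n) (aW W c0) with hμ
    set μ' := ex p (E n) (cW W c0) with hμ'
    set TA := (Finset.range (n + 1)).filter (fun k : ℕ => |(k : ℝ) - μ| ≤ 20 * s) with hTA
    set TB := (Finset.range (n + 1)).filter (fun k : ℕ => |(k : ℝ) - μ'| ≤ 204 * (d * s))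
      with hTB
    have hTAc : (TA.card : ℝ) ≤ 41 * s := by
      refine (card_near (n + 1) μ (20 * s) (by positivity)).trans ?_
      linarith
    have hTBc : (TB.card : ℝ) ≤ 409 * (d * s) := by
      refine (card_near (n + 1) μ' (204 * (d * s)) (by positivity)).trans ?_
      nlinarith
    have hcard : (TA ×ˢ TB).card < C.card := by
      have h1 : ((TA ×ˢ TB).card : ℝ) ≤ 41 * s * (409 * (d * s)) := by
        rw [Finset.card_product]
        push_cast
        exact mul_le_mul hTAc hTBc (Nat.cast_nonneg _) (by positivity)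
      have h2 : 41 * s * (409 * (d * s)) = 16769 * d ^ 2 := by
        have : 41 * s * (409 * (d * s)) = 16769 * (d * s ^ 2) := by ring
        rw [this, hss]; ring
      have h3 : ((TA ×ˢ TB).card : ℝ) < (C.card : ℝ) := by
        rw [h2] at h1
        nlinarith [sq_nonneg d]
      exact_mod_cast h3
    have hmap : ∀ v ∈ C, (((W.filter (fun w => ad S v w)).card,
        (W.filter (fun w => two S v w)).card) : ℕ × ℕ) ∈ TA ×ˢ TB := by
      intro v hv
      have hvc : v ∈ W ↔ c0 ∈ W := hCW v hv c0 hc0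
      have e1 : ex p (E n) (aW W v) = μ := mean_symm p W (fun v => aW W v)
        (fun π hπ v S => aW_relab π W hπ v S) hvc
      have e2 : ex p (E n) (cW W v) = μ' := mean_symm p W (fun v => cW W v)
        (fun π hπ v S => cW_relab π W hπ v S) hvc
      have h3 := hGa v (hCG hv)
      have b1 : (W.filter (fun w => ad S v w)).card ≤ n :=
        (Finset.card_le_univ _).trans (by simp)
      have b2 : (W.filter (fun w => two S v w)).card ≤ n :=
        (Finset.card_le_univ _).trans (by simp)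
      rw [Finset.mem_product, Finset.mem_filter, Finset.mem_filter, Finset.mem_range,
        Finset.mem_range]
      refine ⟨⟨Nat.lt_succ_of_le b1, ?_⟩, Nat.lt_succ_of_le b2, ?_⟩
      · rw [← e1]; exact h3.1
      · rw [← e2]; exact h3.2
    obtain ⟨u, hu, v, hv, huv, he⟩ :=
      Finset.exists_ne_map_eq_of_card_lt_of_maps_to hcard hmap
    refine ⟨u, v, huv, hCW u hu v hv, ?_, ?_⟩
    · unfold aW
      exact_mod_cast congrArg Prod.fst he
    · unfold cW
      exact_mod_cast congrArg Prod.snd he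
  by_cases h : (n : ℝ) / 4 ≤ ((G.filter (fun v => v ∈ W)).card : ℝ)
  · exact hcls _ (Finset.filter_subset _ _) (fun u hu v hv => by
      rw [Finset.mem_filter] at hu hv
      exact ⟨fun _ => hv.2, fun _ => hu.2⟩) h
  · refine hcls (G.filter (fun v => ¬ v ∈ W)) (Finset.filter_subset _ _) (fun u hu v hv => by
      rw [Finset.mem_filter] at hu hv
      exact ⟨fun h => absurd h hu.2, fun h => absurd h hv.2⟩) ?_
    have h1 := Finset.card_filter_add_card_filter_not (s := G) (fun v => v ∈ W)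
    have h2 : ((G.filter (fun v => v ∈ W)).card : ℝ) + ((G.filter (fun v => ¬ v ∈ W)).card : ℝ)
        = (G.card : ℝ) := by exact_mod_cast h1
    push Not at h
    linarith

/-- The set of good edge sets. -/
def Good (S : Finset (Sym2 (Fin n))) : Prop :=
  (∀ u v, u ≠ v → w3 S u v) ∧
    ∀ W : Finset (Fin n), ∃ u v : Fin n, u ≠ v ∧ (u ∈ W ↔ v ∈ W) ∧ aW W u S = aW W v S
      ∧ cW W u S = cW W v S

theorem good_prob {p d : ℝ} (hp0 : 0 ≤ p) (hp1 : p ≤ 1) (hn2 : 2 ≤ n)
    (hd : d = p * ((n - 1 : ℕ) : ℝ)) (hd16 : 16 ≤ d) (hn : 67200 * d ^ 2 < (n : ℝ))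
    (hsm : 10 * (n : ℝ) ^ 2 * Real.exp (-(2 * d)) ≤ 1) :
    pr p (E n) (fun S => ¬ Good S) ≤ 2 * Real.exp (-(n : ℝ)) + (n : ℝ) * Real.exp (-(2 * d))
      + (n : ℝ) ^ 2 * (2 * Real.exp (-(d / 8)) + Real.exp (-(d ^ 3 / (128 * (n : ℝ))))) := by
  have h1 : pr p (E n) (fun S => ¬ Good S)
      ≤ pr p (E n) (fun S => (((∃ W, 5 * (n : ℝ) * Real.sqrt d ≤ Za p W S) ∨
        (∃ W, (∀ v, (dg S v : ℝ) ≤ 4 * d) ∧ 51 * (n : ℝ) * (d * Real.sqrt d) ≤ Zb p W S)) ∨
        (¬ ∀ v, (dg S v : ℝ) ≤ 4 * d)) ∨ (¬ ∀ u v, u ≠ v → w3 S u v)) := by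
    refine pr_mono hp0 hp1 fun S _ h => ?_
    by_contra hc
    apply h
    rw [not_or, not_or, not_or, not_not, not_not] at hc
    obtain ⟨⟨⟨h1, h2⟩, h3⟩, h4⟩ := hc
    refine ⟨h4, fun W => ?_⟩
    push Not at h1 h2
    exact pigeon (p := p) (by linarith) hn W S (h1 W) (h2 W h3)
  refine h1.trans ?_
  refine (pr_or hp0 hp1 _ _ _).trans ?_
  have a1 := w3_all hp0 hp1 hn2 hd hd16
  have a2 := dg_all (n := n) hp0 hp1 hd
  have a3 := Za_unif hp0 hp1 hn2 hd (by linarith)
  have a4 := Zb_unif hp0 hp1 hn2 hd (by linarith) hsm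
  have b1 := pr_or hp0 hp1 (E n) (fun S => ((∃ W, 5 * (n : ℝ) * Real.sqrt d ≤ Za p W S) ∨
        (∃ W, (∀ v, (dg S v : ℝ) ≤ 4 * d) ∧ 51 * (n : ℝ) * (d * Real.sqrt d) ≤ Zb p W S)))
        (fun S => ¬ ∀ v, (dg S v : ℝ) ≤ 4 * d)
  have b2 := pr_or hp0 hp1 (E n) (fun S => ∃ W, 5 * (n : ℝ) * Real.sqrt d ≤ Za p W S)
        (fun S => ∃ W, (∀ v, (dg S v : ℝ) ≤ 4 * d) ∧
          51 * (n : ℝ) * (d * Real.sqrt d) ≤ Zb p W S)
  linarith

end Pool.Agent.MD437
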