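import Pool.Agent.MD437.Path

/-! Bounds that are uniform over all vertex sets. -/

namespace Pool.Agent.MD437

open Finset

variable {n : ℕ}

/-- total deviation of the neighbour counts -/
noncomputable def Za (p : ℝ) (W : Finset (Fin n)) (S : Finset (Sym2 (Fin n))) : ℝ :=
  ∑ v, |aW W v S - ex p (E n) (aW W v)|

/-- total deviation of the counts at distance two -/
noncomputable def Zb (p : ℝ) (W : Finset (Fin n)) (S : Finset (Sym2 (Fin n))) : ℝ :=
  ∑ v, |cW W v S - ex p (E n) (cW W v)|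

lemma abs_sum_dev {s : Finset (Fin n)} (f g m : Fin n → ℝ) :
    abs ((∑ v ∈ s, |f v - m v|) - (∑ v ∈ s, |g v - m v|)) ≤ ∑ v ∈ s, |f v - g v| := by
  rw [← Finset.sum_sub_distrib]
  refine (Finset.abs_sum_le_sum_abs _ _).trans ?_
  refine Finset.sum_le_sum fun v _ => ?_
  have h := abs_abs_sub_abs_le_abs_sub (f v - m v) (g v - m v)
  have e : f v - m v - (g v - m v) = f v - g v := by ring
  rwa [e] at h

lemma Za_lip (p : ℝ) (W : Finset (Fin n)) (e : Sym2 (Fin n)) (S : Finset (Sym2 (Fin n))) :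
    |Za p W (insert e S) - Za p W S| ≤ 2 := by
  unfold Za
  refine (abs_sum_dev _ _ _).trans ?_
  refine (Finset.sum_le_sum fun v _ => aW_insert W v S e).trans ?_
  induction e using Sym2.ind with
  | _ x y =>
    have h : ∀ v : Fin n, (if v ∈ s(x, y) then (1 : ℝ) else 0)
        ≤ (if v = x then (1 : ℝ) else 0) + (if v = y then (1 : ℝ) else 0) := by
      intro v
      by_cases h3 : v ∈ s(x, y)
      · rw [if_pos h3]
        rw [Sym2.mem_iff] at h3
        rcases h3 with h | h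
        · rw [if_pos h]; split_ifs <;> norm_num
        · rw [if_pos h]; split_ifs <;> norm_num
      · rw [if_neg h3]; split_ifs <;> norm_num
    refine (Finset.sum_le_sum fun v _ => h v).trans ?_
    rw [Finset.sum_add_distrib, Finset.sum_ite_eq' , Finset.sum_ite_eq']
    simp; norm_num

lemma choose_eq (hn : 2 ≤ n) : ((n.choose 2 : ℕ) : ℝ) = (n : ℝ) * ((n - 1 : ℕ) : ℝ) / 2 := by
  rw [Nat.cast_choose_two]
  push_cast [Nat.cast_sub (by omega : 1 ≤ n)]
  ring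

lemma Za_mean {p d : ℝ} (hp0 : 0 ≤ p) (hp1 : p ≤ 1)
    (hd : d = p * ((n - 1 : ℕ) : ℝ)) (hd1 : 1 ≤ d) (W : Finset (Fin n)) :
    ex p (E n) (Za p W) ≤ (n : ℝ) * Real.sqrt d := by
  have hs : 0 < Real.sqrt d := Real.sqrt_pos.mpr (by linarith)
  have h : ex p (E n) (Za p W)
      = ∑ v, ex p (E n) (fun S => |aW W v S - ex p (E n) (aW W v)|) := ex_sum _ _ _ _
  rw [h]
  refine (Finset.sum_le_sum (g := fun _ => Real.sqrt d) fun v _ => ?_).trans ?_
  · refine abs_dev hp0 hp1 _ _ hs ?_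
    rw [Real.sq_sqrt (by linarith), hd]
    exact var_aW hp0 hp1 W v
  · rw [Finset.sum_const, Finset.card_univ, Fintype.card_fin, nsmul_eq_mul]

lemma Zb_mean {p d : ℝ} (hp0 : 0 ≤ p) (hp1 : p ≤ 1) (hn : 2 ≤ n)
    (hd : d = p * ((n - 1 : ℕ) : ℝ)) (hd1 : 1 ≤ d) (W : Finset (Fin n)) :
    ex p (E n) (Zb p W) ≤ (n : ℝ) * (4 * d * Real.sqrt d) := by
  have hs : 0 < Real.sqrt d := Real.sqrt_pos.mpr (by linarith)
  have h : ex p (E n) (Zb p W)
      = ∑ v, ex p (E n) (fun S => |cW W v S - ex p (E n) (cW W v)|) := ex_sum _ _ _ _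
  rw [h]
  refine (Finset.sum_le_sum (g := fun _ => 4 * d * Real.sqrt d) fun v _ => ?_).trans ?_
  · refine abs_dev hp0 hp1 _ _ (by positivity) ?_
    rw [mul_pow, Real.sq_sqrt (by linarith)]
    have := var_cW hp0 hp1 hn hd hd1 W v
    calc _ ≤ _ := this
      _ = _ := by ring
  · rw [Finset.sum_const, Finset.card_univ, Fintype.card_fin, nsmul_eq_mul]

/-- a sum over all vertex sets -/
lemma two_pow_exp (n : ℕ) : (2 : ℝ) ^ n * Real.exp (-(2 * (n : ℝ))) ≤ Real.exp (-(n : ℝ)) := by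
  have h : (2 : ℝ) ^ n ≤ Real.exp (n : ℝ) := by
    have h2 : (2 : ℝ) ≤ Real.exp 1 := by
      have := Real.add_one_le_exp (1 : ℝ); linarith
    calc (2 : ℝ) ^ n ≤ Real.exp 1 ^ n := pow_le_pow_left₀ (by norm_num) h2 n
      _ = Real.exp (n : ℝ) := by rw [← Real.exp_nat_mul]; simp
  calc (2 : ℝ) ^ n * Real.exp (-(2 * (n : ℝ))) ≤ Real.exp (n : ℝ) * Real.exp (-(2 * (n : ℝ))) :=
        mul_le_mul_of_nonneg_right h (Real.exp_pos _).le
    _ = _ := by rw [← Real.exp_add]; congr 1; ring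

lemma union_W {p : ℝ} (hp0 : 0 ≤ p) (hp1 : p ≤ 1)
    (Q : Finset (Fin n) → Finset (Sym2 (Fin n)) → Prop)
    (h : ∀ W, pr p (E n) (Q W) ≤ Real.exp (-(2 * (n : ℝ)))) :
    pr p (E n) (fun S => ∃ W, Q W S) ≤ Real.exp (-(n : ℝ)) := by
  have h1 : pr p (E n) (fun S => ∃ W, Q W S)
      ≤ pr p (E n) (fun S => ∃ W ∈ (Finset.univ : Finset (Finset (Fin n))), Q W S) :=
    pr_mono hp0 hp1 fun S _ ⟨W, hW⟩ => ⟨W, Finset.mem_univ _, hW⟩
  refine h1.trans ((pr_union hp0 hp1 _ _ _).trans ?_)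
  refine (Finset.sum_le_sum fun W _ => h W).trans ?_
  rw [Finset.sum_const, Finset.card_univ, Fintype.card_finset, Fintype.card_fin, nsmul_eq_mul]
  push_cast
  exact two_pow_exp n

lemma Za_unif {p d : ℝ} (hp0 : 0 ≤ p) (hp1 : p ≤ 1) (hn : 2 ≤ n)
    (hd : d = p * ((n - 1 : ℕ) : ℝ)) (hd4 : 4 ≤ d) :
    pr p (E n) (fun S => ∃ W, 5 * (n : ℝ) * Real.sqrt d ≤ Za p W S) ≤ Real.exp (-(n : ℝ)) := by
  refine union_W hp0 hp1 _ fun W => ?_
  have hs : 2 ≤ Real.sqrt d := by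
    rw [show (2 : ℝ) = Real.sqrt 4 by
      rw [show (4 : ℝ) = 2 ^ 2 by norm_num, Real.sqrt_sq (by norm_num)]]
    exact Real.sqrt_le_sqrt hd4
  set s := Real.sqrt d with hsd
  have hs0 : 0 < s := by linarith
  have hss : s ^ 2 = d := Real.sq_sqrt (by linarith)
  have h0 : pr p (E n) (fun S => 5 * (n : ℝ) * s ≤ Za p W S)
      ≤ pr p (E n) (fun S => 5 * (n : ℝ) ≤ (1 / s) * Za p W S) := by
    refine pr_mono hp0 hp1 fun S _ h => ?_
    rw [one_div, inv_mul_eq_div, le_div_iff₀ hs0]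
    exact h
  refine h0.trans ((pr_exp hp0 hp1 (E n) (fun S => (1 / s) * Za p W S) (5 * (n : ℝ))).trans ?_)
  have h := mgf hp0 hp1 (E n) (fun _ => (2 : ℝ)) (1 / s)
    (fun e _ => by
      rw [abs_of_pos (by positivity), one_div, inv_mul_eq_div, div_le_one hs0]; exact hs)
    (Za p W) (fun e _ S => Za_lip p W e S)
  have hm := Za_mean hp0 hp1 hd (by linarith) W
  rw [← hsd] at hm
  have h1 : 1 / s * ex p (E n) (Za p W) ≤ n := by
    rw [one_div, inv_mul_eq_div, div_le_iff₀ hs0]; exact hm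
  have h2 : (1 / s) ^ 2 * p * ∑ i ∈ E n, (2 : ℝ) ^ 2 = 2 * n := by
    rw [Finset.sum_const, card_E, nsmul_eq_mul, choose_eq hn]
    have : (1 / s) ^ 2 * p * ((n : ℝ) * ((n - 1 : ℕ) : ℝ) / 2 * 2 ^ 2)
        = 2 * n * ((p * ((n - 1 : ℕ) : ℝ)) / s ^ 2) := by
      field_simp
    rw [this, ← hd, hss, div_self (by linarith)]; ring
  calc Real.exp (-(5 * (n : ℝ))) * ex p (E n) (fun S => Real.exp (1 / s * Za p W S))
      ≤ Real.exp (-(5 * (n : ℝ))) * Real.exp (1 / s * ex p (E n) (Za p W)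
        + (1 / s) ^ 2 * p * ∑ i ∈ E n, (2 : ℝ) ^ 2) :=
        mul_le_mul_of_nonneg_left h (Real.exp_pos _).le
    _ = Real.exp (-(5 * (n : ℝ)) + (1 / s * ex p (E n) (Za p W)
        + (1 / s) ^ 2 * p * ∑ i ∈ E n, (2 : ℝ) ^ 2)) := by rw [← Real.exp_add]
    _ ≤ _ := Real.exp_le_exp.mpr (by rw [h2]; linarith)

lemma cW_le (W : Finset (Fin n)) (v : Fin n) (S : Finset (Sym2 (Fin n))) : cW W v S ≤ n := by
  unfold cW
  have : (W.filter (fun w => two S v w)).card ≤ n := by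
    refine (Finset.card_le_univ _).trans ?_
    simp
  exact_mod_cast this

lemma cW_nonneg (W : Finset (Fin n)) (v : Fin n) (S : Finset (Sym2 (Fin n))) : 0 ≤ cW W v S := by
  unfold cW; positivity

lemma Zb_empty {p : ℝ} (hp0 : 0 ≤ p) (hp1 : p ≤ 1) (W : Finset (Fin n)) :
    Zb p W ∅ ≤ (n : ℝ) * n := by
  unfold Zb
  refine (Finset.sum_le_sum (g := fun _ => (n : ℝ)) fun v _ => ?_).trans ?_
  · have h1 : ex p (E n) (cW W v) ≤ n := by
      refine (ex_mono hp0 hp1 (g := fun _ => (n : ℝ)) fun S _ => cW_le W v S).trans ?_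
      rw [ex_const]
    have h2 : 0 ≤ ex p (E n) (cW W v) := ex_nonneg hp0 hp1 fun S _ => cW_nonneg W v S
    have h3 := cW_le W v ∅
    have h4 := cW_nonneg W v ∅
    rw [abs_le]; constructor <;> linarith
  · rw [Finset.sum_const, Finset.card_univ, Fintype.card_fin, nsmul_eq_mul]

lemma Zb_lip {p d : ℝ} (hd2 : 2 ≤ d) (W : Finset (Fin n)) (e : Sym2 (Fin n)) (he : e ∈ E n)
    (S : Finset (Sym2 (Fin n))) (hP : ∀ v, (dg (insert e S) v : ℝ) ≤ 4 * d) :
    |Zb p W (insert e S) - Zb p W S| ≤ 17 * d := by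
  unfold Zb
  refine (abs_sum_dev _ _ _).trans ?_
  induction e using Sym2.ind with
  | _ x y =>
    have hxy : x ≠ y := mk_mem_E.mp he
    refine (cW_total W S hxy).trans ?_
    have h1 : (dg S x : ℝ) ≤ 4 * d := by
      refine le_trans ?_ (hP x)
      exact_mod_cast dg_mono (Finset.subset_insert _ _) x
    have h2 : (dg S y : ℝ) ≤ 4 * d := by
      refine le_trans ?_ (hP y)
      exact_mod_cast dg_mono (Finset.subset_insert _ _) y
    linarith

lemma dg_all {p d : ℝ} (hp0 : 0 ≤ p) (hp1 : p ≤ 1) (hd : d = p * ((n - 1 : ℕ) : ℝ)) :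
    pr p (E n) (fun S => ¬ ∀ v, (dg S v : ℝ) ≤ 4 * d) ≤ (n : ℝ) * Real.exp (-(2 * d)) := by
  have h1 : pr p (E n) (fun S => ¬ ∀ v, (dg S v : ℝ) ≤ 4 * d)
      ≤ pr p (E n) (fun S => ∃ v ∈ (Finset.univ : Finset (Fin n)), 4 * d ≤ (dg S v : ℝ)) := by
    refine pr_mono hp0 hp1 fun S _ h => ?_
    push Not at h
    obtain ⟨v, hv⟩ := h
    exact ⟨v, Finset.mem_univ _, hv.le⟩
  refine h1.trans ((pr_union hp0 hp1 _ _ _).trans ?_)
  refine (Finset.sum_le_sum fun v _ => dg_upper hp0 hp1 hd v).trans ?_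
  rw [Finset.sum_const, Finset.card_univ, Fintype.card_fin, nsmul_eq_mul]

lemma Zb_unif {p d : ℝ} (hp0 : 0 ≤ p) (hp1 : p ≤ 1) (hn : 2 ≤ n)
    (hd : d = p * ((n - 1 : ℕ) : ℝ)) (hd4 : 4 ≤ d)
    (hsm : 10 * (n : ℝ) ^ 2 * Real.exp (-(2 * d)) ≤ 1) :
    pr p (E n) (fun S => ∃ W, (∀ v, (dg S v : ℝ) ≤ 4 * d) ∧
      51 * (n : ℝ) * (d * Real.sqrt d) ≤ Zb p W S) ≤ Real.exp (-(n : ℝ)) := by
  refine union_W hp0 hp1 _ fun W => ?_
  classical
  have hs : 2 ≤ Real.sqrt d := by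
    rw [show (2 : ℝ) = Real.sqrt 4 by
      rw [show (4 : ℝ) = 2 ^ 2 by norm_num, Real.sqrt_sq (by norm_num)]]
    exact Real.sqrt_le_sqrt hd4
  set s := Real.sqrt d with hsd
  have hs0 : 0 < s := by linarith
  have hss : s ^ 2 = d := Real.sq_sqrt (by linarith)
  have hd0 : 0 < d := by linarith
  set P : Finset (Sym2 (Fin n)) → Prop := fun S => ∀ v, (dg S v : ℝ) ≤ 4 * d with hP
  have hP0 : P ∅ := by
    intro v
    have : dg (∅ : Finset (Sym2 (Fin n))) v = 0 := by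
      unfold dg nb ad
      simp
    rw [this]; push_cast; linarith
  obtain ⟨g, hg1, hg2, hg3⟩ := lip_ext (E n) P hP0
    (fun S T hTS hS v => le_trans (by exact_mod_cast dg_mono hTS v) (hS v)) (Zb p W) (17 * d)
    (by linarith) (fun e he S _ hPS => Zb_lip (by linarith) W e he S hPS)
  have hn0 : (0 : ℝ) < n := by
    have : 0 < n := by omega
    exact_mod_cast this
  -- mean of g
  have hgm : ex p (E n) g ≤ (n : ℝ) * (5 * d * s) := by
    have h1 : ex p (E n) g ≤ ex p (E n) (fun S => Zb p W S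
        + (10 * d * (n : ℝ) ^ 2) * (if ¬ P S then (1 : ℝ) else 0)) := by
      refine ex_mono hp0 hp1 fun S hS => ?_
      by_cases h : P S
      · rw [hg1 S hS h, if_neg (by simpa using h)]; linarith
      · rw [if_pos h]
        have h2 := hg3 S
        have h3 := Zb_empty hp0 hp1 W
        have h4 : (S.card : ℝ) ≤ (n : ℝ) * n / 2 := by
          have h5 : (S.card : ℝ) ≤ ((n.choose 2 : ℕ) : ℝ) := by
            rw [← card_E]
            exact_mod_cast Finset.card_le_card hS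
          rw [choose_eq hn] at h5
          have h6 : ((n - 1 : ℕ) : ℝ) ≤ n := by
            exact_mod_cast Nat.sub_le n 1
          nlinarith
        have h7 : 0 ≤ Zb p W S := Finset.sum_nonneg fun v _ => abs_nonneg _
        have h8 : 17 * d * (S.card : ℝ) ≤ 17 * d * ((n : ℝ) * n / 2) :=
          mul_le_mul_of_nonneg_left h4 (by linarith)
        nlinarith [mul_pos hn0 hn0, mul_le_mul_of_nonneg_right hd4 (mul_pos hn0 hn0).le]
    refine h1.trans ?_
    rw [ex_add, ex_mul_left, ← pr_def]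
    have h2 := Zb_mean hp0 hp1 hn hd (by linarith) W
    rw [← hsd] at h2
    have h3 := dg_all (n := n) hp0 hp1 hd
    have h4 : (10 * d * (n : ℝ) ^ 2) * pr p (E n) (fun S => ¬ P S)
        ≤ (10 * d * (n : ℝ) ^ 2) * ((n : ℝ) * Real.exp (-(2 * d))) :=
      mul_le_mul_of_nonneg_left h3 (by positivity)
    have h5 : (10 * d * (n : ℝ) ^ 2) * ((n : ℝ) * Real.exp (-(2 * d)))
        = d * n * (10 * (n : ℝ) ^ 2 * Real.exp (-(2 * d))) := by ring
    have h6 : d * n * (10 * (n : ℝ) ^ 2 * Real.exp (-(2 * d))) ≤ d * n * 1 :=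
      mul_le_mul_of_nonneg_left hsm (by positivity)
    have h7 : d * n * 1 ≤ d * n * s := mul_le_mul_of_nonneg_left (by linarith) (by positivity)
    nlinarith
  have h0 : pr p (E n) (fun S => P S ∧ 51 * (n : ℝ) * (d * s) ≤ Zb p W S)
      ≤ pr p (E n) (fun S => 3 * (n : ℝ) ≤ (1 / (17 * d * s)) * g S) := by
    refine pr_mono hp0 hp1 fun S hS h => ?_
    rw [hg1 S hS h.1, one_div, inv_mul_eq_div, le_div_iff₀ (by positivity)]
    have := h.2
    nlinarith
  refine h0.trans ((pr_exp hp0 hp1 (E n) (fun S => (1 / (17 * d * s)) * g S)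
    (3 * (n : ℝ))).trans ?_)
  have h := mgf hp0 hp1 (E n) (fun _ => 17 * d) (1 / (17 * d * s))
    (fun e _ => by
      rw [abs_of_pos (by positivity), one_div, inv_mul_eq_div, div_le_one (by positivity)]
      nlinarith)
    g (fun e _ S => hg2 e S)
  have h1 : 1 / (17 * d * s) * ex p (E n) g ≤ n / 2 := by
    rw [one_div, inv_mul_eq_div, div_le_iff₀ (by positivity)]
    have : (n : ℝ) / 2 * (17 * d * s) - (n : ℝ) * (5 * d * s) = 3.5 * (n * d * s) := by ring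
    have h2 : 0 ≤ 3.5 * ((n : ℝ) * d * s) := by positivity
    linarith
  have h2 : (1 / (17 * d * s)) ^ 2 * p * ∑ i ∈ E n, (17 * d : ℝ) ^ 2 = n / 2 := by
    rw [Finset.sum_const, card_E, nsmul_eq_mul, choose_eq hn]
    have : (1 / (17 * d * s)) ^ 2 * p * ((n : ℝ) * ((n - 1 : ℕ) : ℝ) / 2 * (17 * d) ^ 2)
        = n / 2 * ((p * ((n - 1 : ℕ) : ℝ)) / s ^ 2) := by
      field_simp
    rw [this, ← hd, hss, div_self (by linarith)]; ring
  calc Real.exp (-(3 * (n : ℝ))) * ex p (E n) (fun S => Real.exp (1 / (17 * d * s) * g S))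
      ≤ Real.exp (-(3 * (n : ℝ))) * Real.exp (1 / (17 * d * s) * ex p (E n) g
        + (1 / (17 * d * s)) ^ 2 * p * ∑ i ∈ E n, (17 * d : ℝ) ^ 2) :=
        mul_le_mul_of_nonneg_left h (Real.exp_pos _).le
    _ = Real.exp (-(3 * (n : ℝ)) + (1 / (17 * d * s) * ex p (E n) g
        + (1 / (17 * d * s)) ^ 2 * p * ∑ i ∈ E n, (17 * d : ℝ) ^ 2)) := by rw [← Real.exp_add]
    _ ≤ _ := Real.exp_le_exp.mpr (by rw [h2]; linarith)

lemma w3_all {p d : ℝ} (hp0 : 0 ≤ p) (hp1 : p ≤ 1) (hn : 2 ≤ n)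
    (hd : d = p * ((n - 1 : ℕ) : ℝ)) (hd16 : 16 ≤ d) :
    pr p (E n) (fun S => ¬ ∀ u v, u ≠ v → w3 S u v)
      ≤ (n : ℝ) ^ 2 * (2 * Real.exp (-(d / 8)) + Real.exp (-(d ^ 3 / (128 * (n : ℝ))))) := by
  have h1 : pr p (E n) (fun S => ¬ ∀ u v, u ≠ v → w3 S u v)
      ≤ pr p (E n) (fun S => ∃ q ∈ ((Finset.univ : Finset (Fin n × Fin n)).filter
          (fun q => q.1 ≠ q.2)), ¬ w3 S q.1 q.2) := by
    refine pr_mono hp0 hp1 fun S _ h => ?_
    push Not at h
    obtain ⟨u, v, huv, hw⟩ := h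
    exact ⟨(u, v), by simpa using huv, hw⟩
  refine h1.trans ((pr_union hp0 hp1 _ _ _).trans ?_)
  refine (Finset.sum_le_sum (g := fun _ => (2 * Real.exp (-(d / 8))
    + Real.exp (-(d ^ 3 / (128 * (n : ℝ)))))) fun q hq =>
    w3_prob hp0 hp1 hn hd hd16 (by simpa using hq)).trans ?_
  rw [Finset.sum_const, nsmul_eq_mul]
  refine mul_le_mul_of_nonneg_right ?_ (by positivity)
  have : ((Finset.univ : Finset (Fin n × Fin n)).filter (fun q => q.1 ≠ q.2)).card ≤ n ^ 2 := by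
    refine (Finset.card_le_univ _).trans ?_
    simp [sq]
  exact_mod_cast this

end Pool.Agent.MD437
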